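import Mathlib

/-! Definitions: constructive fields, varieties of associative algebras, word problem. -/

set_option autoImplicit false

namespace Pool.Agent.Helper844.WP

universe u

variable {K : Type u} [Field K]

/-- `ν` is a numbering of the elements of the field `K` by natural numbers for which addition,
multiplication, negation, inversion of nonzero elements and the test for equality are computable:
it makes `K` a constructive field. -/
structure IsConstructive (ν : ℕ → K) : Prop where
  surjective : Function.Surjective ν
  add : ∃ f : ℕ → ℕ → ℕ, Computable₂ f ∧ ∀ a b, ν (f a b) = ν a + ν b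
  mul : ∃ f : ℕ → ℕ → ℕ, Computable₂ f ∧ ∀ a b, ν (f a b) = ν a * ν b
  neg : ∃ f : ℕ → ℕ, Computable f ∧ ∀ a, ν (f a) = - ν a
  inv : ∃ f : ℕ → ℕ, Computable f ∧ ∀ a, ν a ≠ 0 → ν (f a) = (ν a)⁻¹
  eq : ComputablePred fun p : ℕ × ℕ => ν p.1 = ν p.2

/-- the constant term of a noncommutative polynomial -/
noncomputable def constTerm {X : Type} : FreeAlgebra K X →ₐ[K] K :=
  FreeAlgebra.lift K (fun _ => (0 : K))

/-- The polynomial `f` (without constant term) is an identity of the not necessarily unital
associative algebra `A`: all its values at elements of `A` are zero (the values are computed in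
the algebra `K ⊕ A` with a unit adjoined). -/
def IsIdentity (A : Type u) [NonUnitalRing A] [Module K A] [IsScalarTower K A A]
    [SMulCommClass K A A] (f : FreeAlgebra K ℕ) : Prop :=
  ∀ v : ℕ → A, FreeAlgebra.lift K (fun i => (Unitization.inr (v i) : Unitization K A)) f = 0

/-- `A` lies in the variety defined by the set `I` of identities. -/
def InVariety (I : Set (FreeAlgebra K ℕ)) (A : Type u) [NonUnitalRing A] [Module K A]
    [IsScalarTower K A A] [SMulCommClass K A A] : Prop :=
  ∀ f ∈ I, IsIdentity A f

/-- The variety defined by `I` contains the variety defined by `J`. -/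
def Contains (I J : Set (FreeAlgebra K ℕ)) : Prop :=
  ∀ (A : Type u) [NonUnitalRing A] [Module K A] [IsScalarTower K A A] [SMulCommClass K A A],
    InVariety J A → InVariety I A

/-- the variable number `i` -/
noncomputable abbrev var (K : Type u) [Field K] (i : ℕ) : FreeAlgebra K ℕ := FreeAlgebra.ι K i

/-- the commutator `[y, z] = y z - z y` -/
def comm {X : Type} (y z : FreeAlgebra K X) : FreeAlgebra K X := y * z - z * y

/-- The identities `x[y,z][t,u]v = 0` and `x[y,z,t]u = 0` that define the variety `W_K`. -/
noncomputable def W (K : Type u) [Field K] : Set (FreeAlgebra K ℕ) :=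
  {var K 0 * comm (var K 1) (var K 2) * comm (var K 3) (var K 4) * var K 5,
    var K 0 * comm (comm (var K 1) (var K 2)) (var K 3) * var K 4}

/-- The values of the identities from `I` at elements without constant term of the free algebra
on `n` generators. They generate the ideal of all identities in `n` variables that hold in the
variety defined by `I`. -/
def values (I : Set (FreeAlgebra K ℕ)) (n : ℕ) : Set (FreeAlgebra K (Fin n)) :=
  {w | ∃ f ∈ I, ∃ s : ℕ → FreeAlgebra K (Fin n), (∀ i, constTerm (s i) = 0) ∧
    w = FreeAlgebra.lift K s f}

/-- The kernel of the map of the free algebra on `n` generators onto the algebra that is finitely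
presented, in the variety defined by `I`, by `n` generators and the relations `r = 0`, `r ∈ R`. -/
def relations (I : Set (FreeAlgebra K ℕ)) (n : ℕ) (R : Finset (FreeAlgebra K (Fin n))) :
    TwoSidedIdeal (FreeAlgebra K (Fin n)) :=
  TwoSidedIdeal.span (values I n ∪ R)

/-- The element of the free algebra without unit on `n` generators that is coded by a list of
monomials: `(c, i, [j, k, ...])` codes the monomial `ν c • x_i x_j x_k ...`. -/
noncomputable def element (ν : ℕ → K) {n : ℕ} (l : List (ℕ × Fin n × List (Fin n))) :
    FreeAlgebra K (Fin n) :=
  (l.map fun t => ν t.1 •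
    (FreeAlgebra.ι K t.2.1 * (t.2.2.map (FreeAlgebra.ι K)).prod)).sum

/-- The word problem is decidable in the variety defined by `I`: for every algebra that is
finitely presented in the variety, it is decidable whether a given element is zero. -/
def WordProblemDecidable (ν : ℕ → K) (I : Set (FreeAlgebra K ℕ)) : Prop :=
  ∀ (n : ℕ) (R : Finset (FreeAlgebra K (Fin n))), (∀ r ∈ R, constTerm r = 0) →
    ComputablePred fun l : List (ℕ × Fin n × List (Fin n)) => element ν l ∈ relations I n R

end Pool.Agent.Helper844.WP
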