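import Mathlib

/-! Systems of linear differential equations of order one in Euler derivations, and the finite
presentation that codes them. -/

set_option autoImplicit false

namespace Pool.Agent.Helper844.WP

open MvPolynomial

universe u

variable {K : Type u} [Field K] {ι J E : Type}

/-- the derivation `∑ i, δ i • x_i ∂/∂x_i` -/
noncomputable def D (δ : ι → K) : Derivation K (MvPolynomial ι K) (MvPolynomial ι K) :=
  mkDerivation K (fun i => δ i • X i)

theorem D_X (δ : ι → K) (i : ι) : D δ (X i) = δ i • X i := by
  simp [D, mkDerivation_X]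

theorem D_mul (δ : ι → K) (p q : MvPolynomial ι K) :
    D δ (p * q) = p * D δ q + q * D δ p := by
  simp [Derivation.leibniz]

theorem D_C (δ : ι → K) (a : K) : D δ (C a) = 0 := by
  rw [← MvPolynomial.algebraMap_eq]
  exact Derivation.map_algebraMap _ _

/-- data of a system: coefficients of the derivations and multiplicative coefficients -/
structure PDE (K : Type u) [Field K] (ι J E : Type) where
  d : E → J → ι → K
  c : E → J → FreeAlgebra K ι

/-- multiplicative coefficient as a polynomial -/
noncomputable def PDE.cp (P : PDE K ι J E) (e : E) (j : J) : MvPolynomial ι K :=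
  FreeAlgebra.lift K (fun i => (X i : MvPolynomial ι K)) (P.c e j)

/-- one column of the operator -/
noncomputable def PDE.col (P : PDE K ι J E) (j : J) :
    MvPolynomial ι K →ₗ[K] (E → MvPolynomial ι K) :=
  LinearMap.pi fun e => (D (P.d e j)).toLinearMap + LinearMap.mulLeft K (P.cp e j)

theorem PDE.col_apply (P : PDE K ι J E) (j : J) (φ : MvPolynomial ι K) (e : E) :
    P.col j φ e = D (P.d e j) φ + P.cp e j * φ := rfl

/-- the image of the operator -/
noncomputable def PDE.range (P : PDE K ι J E) : Submodule K (E → MvPolynomial ι K) :=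
  ⨆ j, LinearMap.range (P.col j)

/-- generators of the presentation -/
inductive Gen (ι J E : Type) : Type
  | a : Gen ι J E
  | b : Gen ι J E
  | x : ι → Gen ι J E
  | t : J → Gen ι J E
  | m : E → Gen ι J E

def Gen.equiv (ι J E : Type) : Gen ι J E ≃ (Bool ⊕ ι ⊕ J ⊕ E) where
  toFun
    | .a => Sum.inl true
    | .b => Sum.inl false
    | .x i => Sum.inr (Sum.inl i)
    | .t j => Sum.inr (Sum.inr (Sum.inl j))
    | .m e => Sum.inr (Sum.inr (Sum.inr e))
  invFun
    | Sum.inl true => .a
    | Sum.inl false => .b
    | Sum.inr (Sum.inl i) => .x i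
    | Sum.inr (Sum.inr (Sum.inl j)) => .t j
    | Sum.inr (Sum.inr (Sum.inr e)) => .m e
  left_inv g := by cases g <;> rfl
  right_inv g := by rcases g with (_ | _) | _ | _ | _ <;> rfl

instance [Finite ι] [Finite J] [Finite E] : Finite (Gen ι J E) :=
  Finite.of_equiv _ (Gen.equiv ι J E).symm

/-- the relations hold for the elements `g` of an algebra -/
structure Holds [Fintype E] (P : PDE K ι J E) {Q : Type*} [Ring Q] [Algebra K Q]
    (g : Gen ι J E → Q) : Prop where
  xx : ∀ i i', g (.x i) * g (.x i') - g (.x i') * g (.x i) = 0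
  xm : ∀ i e, g (.x i) * g (.m e) - g (.m e) * g (.x i) = 0
  tx : ∀ j i, g (.t j) * g (.x i) - g (.x i) * g (.t j) -
    ∑ e, P.d e j i • (g (.x i) * g (.m e)) = 0
  at' : ∀ j, g .a * g (.t j) +
    ∑ e, g .a * FreeAlgebra.lift K (fun i => g (.x i)) (P.c e j) * g (.m e) = 0
  tb : ∀ j, g (.t j) * g .b = 0

end Pool.Agent.Helper844.WP
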