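import Mathlib
import Pool.Agent.Helper844.Sys
import Pool.Agent.Helper844.WP.PDE

/-! Quadratic systems over the integers as systems of differential equations. -/

set_option autoImplicit false

namespace Pool.Agent.Helper844.WP

open MvPolynomial
open Pool.Agent.Helper844.Sys (Eqn)

universe u

variable {K : Type u} [Field K]

section
variable {ι : Type} [Fintype ι]

theorem D_monomial (δ : ι → K) (t : ι →₀ ℕ) (a : K) :
    D δ (monomial t a) = (∑ i, δ i * t i) • monomial t a := by
  rw [D, mkDerivation_monomial, Finsupp.sum_fintype _ _ (by simp), Finset.smul_sum,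
    Finset.sum_smul]
  refine Finset.sum_congr rfl fun i _ => ?_
  by_cases h : t i = 0
  · simp [h]
  · rw [X, smul_monomial, smul_eq_mul, monomial_mul, smul_monomial, smul_monomial,
      tsub_add_cancel_of_le]
    · congr 1
      simp only [smul_eq_mul]
      ring
    · rw [Finsupp.single_le_iff]
      omega

theorem coeff_D (δ : ι → K) (p : MvPolynomial ι K) (s : ι →₀ ℕ) :
    coeff s (D δ p) = (∑ i, δ i * s i) * coeff s p := by
  classical
  induction p using MvPolynomial.induction_on' with
  | monomial t a =>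
    rw [D_monomial, coeff_smul, coeff_monomial, smul_eq_mul]
    split_ifs with h
    · rw [h]
    · simp
  | add p q hp hq => rw [map_add, coeff_add, coeff_add, hp, hq, mul_add]

end

theorem mem_range {ι J E : Type} [Fintype J] (P : PDE K ι J E) (ψ : E → MvPolynomial ι K) :
    ψ ∈ P.range ↔ ∃ φ : J → MvPolynomial ι K, ∀ e,
      ∑ j, (D (P.d e j) (φ j) + P.cp e j * φ j) = ψ e := by
  classical
  constructor
  · intro h
    have : P.range ≤ LinearMap.range (LinearMap.lsum K (fun _ : J => MvPolynomial ι K) K P.col) := by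
      refine iSup_le fun j => ?_
      rintro _ ⟨φ, rfl⟩
      refine ⟨Pi.single j φ, ?_⟩
      rw [LinearMap.lsum_apply, LinearMap.sum_apply,
        Finset.sum_eq_single j (fun x _ hx => by simp [Pi.single_eq_of_ne hx])
          (fun h => absurd (Finset.mem_univ _) h)]
      simp
    obtain ⟨φ, rfl⟩ := this h
    refine ⟨φ, fun e => ?_⟩
    rw [LinearMap.lsum_apply, LinearMap.sum_apply, Finset.sum_apply]
    rfl
  · rintro ⟨φ, h⟩
    have : ψ = ∑ j, P.col j (φ j) := by
      funext e
      rw [← h e, Finset.sum_apply]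
      rfl
    rw [this]
    exact Submodule.sum_mem _ fun j _ => Submodule.mem_iSup_of_mem j ⟨_, rfl⟩

variable {V : Type} [DecidableEq V]

/-- `θ` of the positive part minus `θ` of the negative part of the variable `v` -/
def del (K : Type u) [Field K] (v : V) : V ⊕ V → K :=
  Sum.elim (fun w => if w = v then 1 else 0) (fun w => if w = v then -1 else 0)

theorem del_sum [Fintype V] (v : V) (s : V ⊕ V →₀ ℕ) :
    ∑ i, del K v i * s i = ((s (Sum.inl v) : ℤ) - (s (Sum.inr v) : ℤ) : ℤ) := by
  rw [Fintype.sum_sum_type]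
  simp [del, sub_eq_add_neg]

/-- the system of differential equations -/
noncomputable def thePDE (K : Type u) [Field K] (L : List (Eqn V)) (f : V) :
    PDE K (V ⊕ V) (Unit ⊕ (Fin L.length ⊕ (V ⊕ V))) (Unit ⊕ (Fin L.length ⊕ Fin L.length)) where
  d
    | .inl _, _ => 0
    | .inr (.inl e), .inl _ => fun i => - del K (L.get e).j i
    | .inr (.inl _), .inr _ => 0
    | .inr (.inr e), .inl _ => fun i => (L.get e).a * del K (L.get e).k i +
        (L.get e).b * del K (L.get e).l i + (L.get e).c * del K (L.get e).m i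
    | .inr (.inr e), .inr (.inl e') =>
        if e = e' then fun i => (L.get e).e * del K (L.get e).i i else 0
    | .inr (.inr _), .inr (.inr _) => 0
  c
    | .inl _, .inl _ => 1
    | .inl _, .inr (.inl _) => 0
    | .inl _, .inr (.inr i) =>
        if i = .inl f ∨ i = .inr f then 0 else FreeAlgebra.ι K i - 1
    | .inr (.inl _), .inl _ => 0
    | .inr (.inl e), .inr (.inl e') => if e = e' then 1 else 0
    | .inr (.inl _), .inr (.inr _) => 0
    | .inr (.inr e), .inl _ => algebraMap K _ ((L.get e).d : K)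
    | .inr (.inr _), .inr _ => 0

variable [Fintype V]

/-- what it means to solve the system -/
theorem mem_range_thePDE (L : List (Eqn V)) (f : V)
    (ψ : MvPolynomial (V ⊕ V) K) :
    (Pi.single (Sum.inl ()) ψ : (Unit ⊕ (Fin L.length ⊕ Fin L.length)) →
      MvPolynomial (V ⊕ V) K) ∈ (thePDE K L f).range ↔
    ∃ (F : MvPolynomial (V ⊕ V) K) (g : Fin L.length → MvPolynomial (V ⊕ V) K)
      (h : V ⊕ V → MvPolynomial (V ⊕ V) K),
      (F + ∑ i, (if i = .inl f ∨ i = .inr f then 0 else X i - 1) * h i = ψ) ∧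
      (∀ e, g e = D (del K (L.get e).j) F) ∧
      (∀ e, D (fun i => (L.get e).e * del K (L.get e).i i) (g e) +
        D (fun i => (L.get e).a * del K (L.get e).k i +
        (L.get e).b * del K (L.get e).l i + (L.get e).c * del K (L.get e).m i) F +
        C ((L.get e).d : K) * F = 0) := by
  have hD0 : ∀ p : MvPolynomial (V ⊕ V) K, D (0 : V ⊕ V → K) p = 0 := by
    intro p
    ext s
    rw [coeff_D]
    simp
  have hDn : ∀ (δ : V ⊕ V → K) (p : MvPolynomial (V ⊕ V) K), D (fun i => - δ i) p = - D δ p := by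
    intro δ p
    ext s
    rw [coeff_D, coeff_neg, coeff_D]
    simp only [neg_mul, Finset.sum_neg_distrib]
  have e0 : ∀ (φ : Unit ⊕ (Fin L.length ⊕ (V ⊕ V)) → MvPolynomial (V ⊕ V) K),
      ∑ j, (D ((thePDE K L f).d (.inl ()) j) (φ j) + (thePDE K L f).cp (.inl ()) j * φ j) =
      φ (.inl ()) + ∑ i, (if i = .inl f ∨ i = .inr f then 0 else X i - 1) * φ (.inr (.inr i)) := by
    intro φ
    rw [Fintype.sum_sum_type, Fintype.sum_sum_type (fun j => D ((thePDE K L f).d (.inl ())
      (.inr j)) (φ (.inr j)) + (thePDE K L f).cp (.inl ()) (.inr j) * φ (.inr j))]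
    simp only [Finset.univ_unique, Finset.sum_singleton, thePDE, PDE.cp, hD0, map_one, one_mul,
      map_zero, zero_mul, zero_add, Finset.sum_const_zero, PUnit.default_eq_unit]
    congr 1
    refine Finset.sum_congr rfl fun i _ => ?_
    split_ifs <;> simp
  have eA : ∀ e (φ : Unit ⊕ (Fin L.length ⊕ (V ⊕ V)) → MvPolynomial (V ⊕ V) K),
      ∑ j, (D ((thePDE K L f).d (.inr (.inl e)) j) (φ j) +
        (thePDE K L f).cp (.inr (.inl e)) j * φ j) =
      φ (.inr (.inl e)) - D (del K (L.get e).j) (φ (.inl ())) := by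
    intro e φ
    rw [Fintype.sum_sum_type, Fintype.sum_sum_type (fun j => D ((thePDE K L f).d (.inr (.inl e))
      (.inr j)) (φ (.inr j)) + (thePDE K L f).cp (.inr (.inl e)) (.inr j) * φ (.inr j))]
    simp only [Finset.univ_unique, Finset.sum_singleton, thePDE, PDE.cp, hD0, hDn, map_one,
      one_mul, map_zero, zero_mul, zero_add, add_zero, Finset.sum_const_zero,
      PUnit.default_eq_unit]
    rw [Finset.sum_eq_single e (fun x _ hx => by rw [if_neg (Ne.symm hx), map_zero, zero_mul])
      (fun h => absurd (Finset.mem_univ _) h), if_pos rfl, map_one, one_mul]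
    ring
  have eB : ∀ e (φ : Unit ⊕ (Fin L.length ⊕ (V ⊕ V)) → MvPolynomial (V ⊕ V) K),
      ∑ j, (D ((thePDE K L f).d (.inr (.inr e)) j) (φ j) +
        (thePDE K L f).cp (.inr (.inr e)) j * φ j) =
      D (fun i => (L.get e).e * del K (L.get e).i i) (φ (.inr (.inl e))) +
        D (fun i => (L.get e).a * del K (L.get e).k i +
        (L.get e).b * del K (L.get e).l i + (L.get e).c * del K (L.get e).m i) (φ (.inl ())) +
        C ((L.get e).d : K) * φ (.inl ()) := by
    intro e φ
    rw [Fintype.sum_sum_type, Fintype.sum_sum_type (fun j => D ((thePDE K L f).d (.inr (.inr e))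
      (.inr j)) (φ (.inr j)) + (thePDE K L f).cp (.inr (.inr e)) (.inr j) * φ (.inr j))]
    simp only [Finset.univ_unique, Finset.sum_singleton, thePDE, PDE.cp, hD0, hDn, map_one,
      one_mul, map_zero, zero_mul, zero_add, add_zero, Finset.sum_const_zero,
      PUnit.default_eq_unit]
    rw [Finset.sum_eq_single e (fun x _ hx => by rw [if_neg (Ne.symm hx), hD0])
      (fun h => absurd (Finset.mem_univ _) h), if_pos rfl, AlgHom.commutes,
      MvPolynomial.algebraMap_eq]
    ring
  rw [mem_range]
  constructor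
  · rintro ⟨φ, h⟩
    refine ⟨φ (.inl ()), fun e => φ (.inr (.inl e)), fun i => φ (.inr (.inr i)), ?_, ?_, ?_⟩
    · rw [← e0 φ, h, Pi.single_eq_same]
    · intro e
      have := h (.inr (.inl e))
      rw [eA, Pi.single_eq_of_ne (by simp), sub_eq_zero] at this
      exact this
    · intro e
      have := h (.inr (.inr e))
      rw [eB, Pi.single_eq_of_ne (by simp)] at this
      exact this
  · rintro ⟨F, g, h, h1, h2, h3⟩
    refine ⟨Sum.elim (fun _ => F) (Sum.elim g h), ?_⟩
    rintro (_ | e | e)
    · rw [e0, Pi.single_eq_same]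
      exact h1
    · rw [eA, Pi.single_eq_of_ne (by simp), sub_eq_zero]
      exact h2 e
    · rw [eB, Pi.single_eq_of_ne (by simp)]
      exact h3 e

/-- `x_i - 1` for the variables to be set to one -/
noncomputable def cc (K : Type u) [Field K] (f : V) (i : V ⊕ V) : MvPolynomial (V ⊕ V) K :=
  if i = .inl f ∨ i = .inr f then 0 else X i - 1

omit [Fintype V] in
theorem cc_hom (f : V) {Q : Type*} [CommRing Q] (q : MvPolynomial (V ⊕ V) K →+* Q)
    (h : ∀ i, q (cc K f i) = 0) (i : V ⊕ V) (hi : i ≠ .inl f) (hi' : i ≠ .inr f) :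
    q (X i) = 1 := by
  have := h i
  rw [cc, if_neg (by tauto), map_sub, map_one, sub_eq_zero] at this
  exact this

theorem exists_h (f : V) (m : V ⊕ V →₀ ℕ) (p : ℕ) (q : ℕ) (h1 : m (.inl f) = p)
    (h2 : m (.inr f) = q) : ∃ h : V ⊕ V → MvPolynomial (V ⊕ V) K,
      monomial m 1 + ∑ i, cc K f i * h i = X (.inl f) ^ p * X (.inr f) ^ q := by
  have key : X (.inl f) ^ p * X (.inr f) ^ q - monomial m 1 ∈
      Ideal.span (Set.range (cc K f)) := by
    rw [← Ideal.Quotient.eq]
    have h0 : ∀ i, Ideal.Quotient.mk (Ideal.span (Set.range (cc K f))) (cc K f i) = 0 := by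
      intro i
      rw [Ideal.Quotient.eq_zero_iff_mem]
      exact Ideal.subset_span ⟨i, rfl⟩
    have h3 := cc_hom f (Ideal.Quotient.mk (Ideal.span (Set.range (cc K f)))) h0
    rw [monomial_eq, C_1, one_mul, Finsupp.prod_fintype _ _ (by simp), Fintype.prod_sum_type,
      map_mul, map_mul, map_prod, map_prod]
    rw [Finset.prod_eq_single f, Finset.prod_eq_single f, h1, h2]
    · intro v _ hv
      rw [map_pow, h3 _ (by simp) (by simpa using hv), one_pow]
    · intro h
      exact absurd (Finset.mem_univ _) h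
    · intro v _ hv
      rw [map_pow, h3 _ (by simpa using hv) (by simp), one_pow]
    · intro h
      exact absurd (Finset.mem_univ _) h
  obtain ⟨c, hc⟩ := (Ideal.mem_span_range_iff_exists_fun).1 key
  refine ⟨c, ?_⟩
  have : ∑ i, cc K f i * c i = ∑ i, c i * cc K f i :=
    Finset.sum_congr rfl fun i _ => mul_comm _ _
  rw [this, hc]
  ring

/-- set the variables other than `f` to one and find a monomial of the support -/
theorem exists_mon (f : V) (F : MvPolynomial (V ⊕ V) K) (h : V ⊕ V → MvPolynomial (V ⊕ V) K)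
    (p q : ℕ) (hh : F + ∑ i, cc K f i * h i = X (.inl f) ^ p * X (.inr f) ^ q) :
    ∃ m : V ⊕ V →₀ ℕ, coeff m F ≠ 0 ∧ m (.inl f) = p ∧ m (.inr f) = q := by
  let g : V ⊕ V → MvPolynomial (V ⊕ V) K := fun i => if i = .inl f ∨ i = .inr f then X i else 1
  let w : V ⊕ V →₀ ℕ := Finsupp.single (.inl f) p + Finsupp.single (.inr f) q
  have h1 : aeval g F = monomial w 1 := by
    have h2 := congrArg (aeval g) hh
    rw [map_add, map_sum, Finset.sum_eq_zero, add_zero] at h2
    · rw [h2, map_mul, map_pow, map_pow, aeval_X, aeval_X]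
      simp only [g, true_or, or_true, if_true]
      rw [X_pow_eq_monomial, X_pow_eq_monomial, monomial_mul, one_mul]
    · intro i _
      rw [map_mul, cc]
      split_ifs with hi
      · simp
      · rw [map_sub, aeval_X, map_one]
        simp [g, hi]
  by_contra hno
  push Not at hno
  have h3 : coeff w (aeval g F) = 0 := by
    rw [aeval_def, eval₂_eq', coeff_sum]
    refine Finset.sum_eq_zero fun m hm => ?_
    have hm' : coeff m F ≠ 0 := by
      rwa [mem_support_iff] at hm
    rw [MvPolynomial.algebraMap_eq, coeff_C_mul, Fintype.prod_sum_type,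
      Finset.prod_eq_single f, Finset.prod_eq_single f]
    · simp only [g, true_or, or_true, if_true]
      rw [X_pow_eq_monomial, X_pow_eq_monomial, monomial_mul, one_mul, coeff_monomial, if_neg,
        mul_zero]
      intro he
      have e1 := DFunLike.congr_fun he (.inl f)
      have e2 := DFunLike.congr_fun he (.inr f)
      simp [w] at e1 e2
      exact hno m hm' e1 e2
    · intro v _ hv
      simp [g, hv]
    · intro h
      exact absurd (Finset.mem_univ _) h
    · intro v _ hv
      simp [g, hv]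
    · intro h
      exact absurd (Finset.mem_univ _) h
  rw [h1, coeff_monomial, if_pos rfl] at h3
  exact one_ne_zero h3

theorem solve_iff [CharZero K] (L : List (Eqn V)) (f : V) (n : ℕ) :
    (Pi.single (Sum.inl ()) (X (.inl f) ^ 1 * X (.inr f) ^ (4 * n)) :
      (Unit ⊕ (Fin L.length ⊕ Fin L.length)) → MvPolynomial (V ⊕ V) K) ∈ (thePDE K L f).range ↔
    ∃ x : V → ℤ, x f = 1 - 4 * n ∧ ∀ q ∈ L, q.Holds x := by
  rw [mem_range_thePDE]
  have hδ : ∀ (q : Eqn V) (s : V ⊕ V →₀ ℕ), ∑ i, (q.a * del K q.k i + q.b * del K q.l i +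
      q.c * del K q.m i) * s i = ((q.a * (s (Sum.inl q.k) - s (Sum.inr q.k)) +
        q.b * (s (Sum.inl q.l) - s (Sum.inr q.l)) +
        q.c * (s (Sum.inl q.m) - s (Sum.inr q.m)) : ℤ) : K) := by
    intro q s
    simp only [add_mul, Finset.sum_add_distrib, mul_assoc, ← Finset.mul_sum, del_sum]
    push_cast
    rfl
  have hδ' : ∀ (q : Eqn V) (s : V ⊕ V →₀ ℕ), ∑ i, (q.e * del K q.i i) * s i =
      ((q.e * (s (Sum.inl q.i) - s (Sum.inr q.i)) : ℤ) : K) := by
    intro q s
    simp only [mul_assoc, ← Finset.mul_sum, del_sum]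
    push_cast
    rfl
  constructor
  · rintro ⟨F, g, h, h1, h2, h3⟩
    obtain ⟨m, hm, hp, hq⟩ := exists_mon f F h 1 (4 * n) h1
    refine ⟨fun v => (m (.inl v) : ℤ) - m (.inr v), ?_, ?_⟩
    · simp only [hp, hq]
      push_cast
      ring
    · intro q hqL
      obtain ⟨e, rfl⟩ := List.get_of_mem hqL
      have h4 := congrArg (coeff m) (h3 e)
      rw [h2, coeff_add, coeff_add, coeff_D, coeff_D, coeff_D, coeff_C_mul, coeff_zero, hδ, hδ',
        del_sum, ← mul_assoc, ← add_mul, ← add_mul] at h4
      have h5 := (mul_eq_zero.1 h4).resolve_right hm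
      have h6 : ((((L.get e).e * (m (Sum.inl (L.get e).i) - m (Sum.inr (L.get e).i)) *
        (m (Sum.inl (L.get e).j) - m (Sum.inr (L.get e).j)) +
        ((L.get e).a * (m (Sum.inl (L.get e).k) - m (Sum.inr (L.get e).k)) +
        (L.get e).b * (m (Sum.inl (L.get e).l) - m (Sum.inr (L.get e).l)) +
        (L.get e).c * (m (Sum.inl (L.get e).m) - m (Sum.inr (L.get e).m))) +
        (L.get e).d : ℤ)) : K) = 0 := by
        rw [← h5]
        push_cast
        ring
      have h7 := Int.cast_eq_zero.1 h6
      rw [Eqn.Holds, ← h7]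
      ring
  · rintro ⟨x, hx, hL⟩
    let m0 : V ⊕ V → ℕ := Sum.elim (fun v => if v = f then 1 else (x v).toNat)
      (fun v => if v = f then 4 * n else (- x v).toNat)
    let m : V ⊕ V →₀ ℕ := Finsupp.equivFunOnFinite.symm m0
    have hm : ∀ v, (m (.inl v) : ℤ) - m (.inr v) = x v := by
      intro v
      simp only [m, m0, Finsupp.equivFunOnFinite_symm_apply_apply, Sum.elim_inl, Sum.elim_inr]
      split_ifs with hv
      · rw [hv, hx]
        push_cast
        ring
      · omega
    obtain ⟨h, hh⟩ := exists_h (K := K) f m 1 (4 * n) (by simp [m, m0]) (by simp [m, m0])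
    refine ⟨monomial m 1, fun e => ((x (L.get e).j : ℤ) : K) • monomial m 1, h, hh, ?_, ?_⟩
    · intro e
      rw [D_monomial, del_sum, hm]
    · intro e
      have h4 := hL (L.get e) (List.get_mem _ _)
      rw [Derivation.map_smul, D_monomial, D_monomial, hδ, hδ', hm, hm, hm, hm, smul_smul, ← add_smul,
        ← smul_eq_C_mul, ← add_smul]
      rw [Eqn.Holds] at h4
      convert zero_smul K (monomial m (1 : K))
      have h5 : ((((L.get e).e * (x (L.get e).i * x (L.get e).j) + (L.get e).a * x (L.get e).k +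
        (L.get e).b * x (L.get e).l + (L.get e).c * x (L.get e).m + (L.get e).d : ℤ)) : K) = 0 := by
        rw [h4, Int.cast_zero]
      rw [← h5]
      push_cast
      ring

end Pool.Agent.Helper844.WP
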