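import Mathlib
import Pool.Agent.Helper844.WP.PDE

/-! If the system is solvable then the word is zero. -/

set_option autoImplicit false

namespace Pool.Agent.Helper844.WP

open MvPolynomial

universe u

variable {K : Type u} [Field K] {ι J E : Type} {Q : Type*} [Ring Q] [Algebra K Q]

theorem exists_ev (x : ι → Q) (h : ∀ i j, x i * x j = x j * x i) :
    ∃ ev : MvPolynomial ι K →ₐ[K] Q, ∀ i, ev (X i) = x i := by
  have hc : ∀ a ∈ Set.range x, ∀ b ∈ Set.range x, a * b = b * a := by
    rintro _ ⟨i, rfl⟩ _ ⟨j, rfl⟩
    exact h i j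
  let := Algebra.adjoinCommRingOfComm K hc
  let y : ι → Algebra.adjoin K (Set.range x) := fun i =>
    ⟨x i, Algebra.subset_adjoin ⟨i, rfl⟩⟩
  refine ⟨(Algebra.adjoin K (Set.range x)).val.comp (aeval y), fun i => ?_⟩
  simp [y]

theorem ev_lift (ev : MvPolynomial ι K →ₐ[K] Q) (c : FreeAlgebra K ι) :
    ev (FreeAlgebra.lift K (fun i => (X i : MvPolynomial ι K)) c) =
      FreeAlgebra.lift K (fun i => ev (X i)) c := by
  have : ev.comp (FreeAlgebra.lift K (fun i => (X i : MvPolynomial ι K))) =
      FreeAlgebra.lift K (fun i => ev (X i)) := by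
    apply FreeAlgebra.hom_ext
    funext i
    simp
  exact DFunLike.congr_fun this c

variable [Fintype E] [DecidableEq E]

theorem easy (P : PDE K ι J E) (g : Gen ι J E → Q) (h : Holds P g) (e₀ : E) (w : List ι)
    (hw : (Pi.single e₀ (w.map X).prod : E → MvPolynomial ι K) ∈ P.range) :
    g .a * (w.map fun i => g (.x i)).prod * g (.m e₀) * g .b = 0 := by
  obtain ⟨ev, hev⟩ := exists_ev (K := K) (fun i => g (.x i))
    (fun i j => sub_eq_zero.1 (h.xx i j))
  -- `m` commutes with the image of `ev`
  have hm : ∀ e (φ : MvPolynomial ι K), g (.m e) * ev φ = ev φ * g (.m e) := by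
    intro e φ
    induction φ using MvPolynomial.induction_on with
    | C a => rw [← MvPolynomial.algebraMap_eq, AlgHom.commutes, Algebra.commutes]
    | add p q hp hq => rw [map_add, mul_add, add_mul, hp, hq]
    | mul_X p i hp =>
      rw [map_mul, hev, ← mul_assoc, hp, mul_assoc, mul_assoc, sub_eq_zero.1 (h.xm i e)]
  have ht : ∀ j (φ : MvPolynomial ι K), g (.t j) * ev φ = ev φ * g (.t j) +
      ∑ e, ev (D (P.d e j) φ) * g (.m e) := by
    intro j φ
    induction φ using MvPolynomial.induction_on with
    | C a =>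
      simp only [D_C, map_zero, zero_mul, Finset.sum_const_zero, add_zero]
      rw [← MvPolynomial.algebraMap_eq, AlgHom.commutes, Algebra.commutes]
    | add p q hp hq =>
      rw [map_add, mul_add, add_mul, hp, hq]
      simp only [map_add, add_mul, Finset.sum_add_distrib]
      abel
    | mul_X p i hp =>
      have h1 : g (.t j) * g (.x i) = g (.x i) * g (.t j) +
          ∑ e, P.d e j i • (g (.x i) * g (.m e)) := by
        have := h.tx j i
        rw [sub_sub, sub_eq_zero] at this
        exact this
      rw [map_mul, hev, ← mul_assoc, hp, add_mul, mul_assoc, h1, Finset.sum_mul, mul_add,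
        Finset.mul_sum, mul_assoc, add_assoc, ← Finset.sum_add_distrib]
      congr 1
      refine Finset.sum_congr rfl fun e _ => ?_
      rw [D_mul, D_X, map_add, map_mul, map_mul, map_smul, hev, add_mul, mul_smul_comm,
        mul_smul_comm, smul_mul_assoc, mul_assoc (ev (D _ p)), ← sub_eq_zero.1 (h.xm i e),
        ← mul_assoc, ← mul_assoc, ← hev i, ← map_mul, ← map_mul, mul_comm p,
        ← map_mul, mul_comm (X i) ((D (P.d e j)) p)]
  -- each column gives zero
  have hcol : ∀ j (φ : MvPolynomial ι K),
      ∑ e, g .a * ev (P.col j φ e) * g (.m e) * g .b = 0 := by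
    intro j φ
    have h1 : g .a * (g (.t j) * ev φ) * g .b =
        ∑ e, g .a * ev (D (P.d e j) φ) * g (.m e) * g .b := by
      rw [ht, mul_add, add_mul, ← mul_assoc, mul_assoc (g .a * ev φ), h.tb, mul_zero, zero_add,
        Finset.mul_sum, Finset.sum_mul]
      refine Finset.sum_congr rfl fun e _ => ?_
      rw [← mul_assoc]
    have h2 : g .a * (g (.t j) * ev φ) * g .b =
        - ∑ e, g .a * ev (P.cp e j * φ) * g (.m e) * g .b := by
      have h3 : g .a * g (.t j) = - ∑ e, g .a * ev (P.cp e j) * g (.m e) := by
        have := h.at' j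
        rw [add_eq_zero_iff_eq_neg] at this
        rw [this]
        congr 1
        refine Finset.sum_congr rfl fun e _ => ?_
        rw [PDE.cp, ev_lift]
        simp only [hev]
      rw [← mul_assoc, h3, neg_mul, neg_mul, Finset.sum_mul, Finset.sum_mul]
      congr 1
      refine Finset.sum_congr rfl fun e _ => ?_
      rw [mul_assoc (g .a * ev (P.cp e j)), hm, map_mul]
      simp only [mul_assoc]
    have h4 := h1.symm.trans h2
    rw [← add_eq_zero_iff_eq_neg, ← Finset.sum_add_distrib] at h4
    rw [← h4]
    refine Finset.sum_congr rfl fun e _ => ?_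
    rw [PDE.col_apply, map_add, mul_add, add_mul, add_mul]
  -- the functional
  let F : (E → MvPolynomial ι K) →ₗ[K] Q :=
    { toFun := fun μ => ∑ e, g .a * ev (μ e) * g (.m e) * g .b
      map_add' := fun μ ν => by
        simp only [Pi.add_apply, map_add, mul_add, add_mul, Finset.sum_add_distrib]
      map_smul' := fun r μ => by
        simp only [Pi.smul_apply, map_smul, mul_smul_comm, smul_mul_assoc, Finset.smul_sum,
          RingHom.id_apply] }
  have hF : P.range ≤ LinearMap.ker F := by
    refine iSup_le fun j => ?_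
    rintro _ ⟨φ, rfl⟩
    rw [LinearMap.mem_ker]
    exact hcol j φ
  have h5 := hF hw
  rw [LinearMap.mem_ker] at h5
  change ∑ e, g .a * ev ((Pi.single e₀ (w.map X).prod : E → MvPolynomial ι K) e) *
    g (.m e) * g .b = 0 at h5
  rw [Finset.sum_eq_single e₀ (fun e _ he => by simp [Pi.single_eq_of_ne he])
    (fun h => absurd (Finset.mem_univ _) h), Pi.single_eq_same, map_list_prod, List.map_map] at h5
  rw [← h5]
  congr 4
  refine List.map_congr_left fun i _ => ?_
  exact (hev i).symm

end Pool.Agent.Helper844.WP
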