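import Mathlib
import Pool.Agent.Helper844.WP.PDE

/-! The model: operators on `K × (R × R^E) × R^E / range`. -/

set_option autoImplicit false

namespace Pool.Agent.Helper844.WP

open MvPolynomial

universe u

variable {K : Type u} [Field K] {ι J E : Type}

/-- the space of the model -/
abbrev Sp (P : PDE K ι J E) : Type u :=
  K × ((MvPolynomial ι K × (E → MvPolynomial ι K)) × ((E → MvPolynomial ι K) ⧸ P.range))

variable (P : PDE K ι J E)

/-- operators of order at most one -/
def Ord1 (Δ : MvPolynomial ι K →ₗ[K] (E → MvPolynomial ι K)) : Prop :=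
  ∀ r s φ e, Δ (r * (s * φ)) e - r * Δ (s * φ) e - s * Δ (r * φ) e + r * s * Δ φ e = 0

/-- good operators -/
structure Good (T : Module.End K (Sp P)) (ψ : MvPolynomial ι K)
    (Δ : MvPolynomial ι K →ₗ[K] (E → MvPolynomial ι K)) : Prop where
  ord : Ord1 Δ
  fst : ∀ v, (T v).1 = 0
  last : ∀ q, T (0, (0, q)) = 0
  mid1 : ∀ φ μ q, (T (0, ((φ, μ), q))).2.1.1 = ψ * φ
  mid2 : ∀ φ μ q e, (T (0, ((φ, μ), q))).2.1.2 e = ψ * μ e + Δ φ e

variable {P}

theorem Good.add {T T' : Module.End K (Sp P)} {ψ ψ' Δ Δ'} (h : Good P T ψ Δ)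
    (h' : Good P T' ψ' Δ') : Good P (T + T') (ψ + ψ') (Δ + Δ') where
  ord r s φ e := by
    have h1 := h.ord r s φ e
    have h2 := h'.ord r s φ e
    simp only [LinearMap.add_apply, Pi.add_apply]
    linear_combination h1 + h2
  fst v := by
    rw [LinearMap.add_apply, Prod.fst_add, h.fst, h'.fst, add_zero]
  last q := by
    rw [LinearMap.add_apply, h.last, h'.last, add_zero]
  mid1 φ μ q := by
    simp only [LinearMap.add_apply, Prod.snd_add, Prod.fst_add, h.mid1, h'.mid1]
    ring
  mid2 φ μ q e := by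
    simp only [LinearMap.add_apply, Prod.snd_add, Prod.fst_add, Pi.add_apply, h.mid2, h'.mid2]
    ring

theorem Good.smul {T : Module.End K (Sp P)} {ψ Δ} (h : Good P T ψ Δ) (r : K) :
    Good P (r • T) (r • ψ) (r • Δ) where
  ord a s φ e := by
    have h1 := h.ord a s φ e
    simp only [LinearMap.smul_apply, Pi.smul_apply, MvPolynomial.smul_eq_C_mul]
    linear_combination C r * h1
  fst v := by
    rw [LinearMap.smul_apply, Prod.smul_fst, h.fst, smul_zero]
  last q := by
    rw [LinearMap.smul_apply, h.last, smul_zero]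
  mid1 φ μ q := by
    simp only [LinearMap.smul_apply, Prod.smul_snd, Prod.smul_fst, h.mid1,
      MvPolynomial.smul_eq_C_mul]
    ring
  mid2 φ μ q e := by
    simp only [LinearMap.smul_apply, Prod.smul_snd, Prod.smul_fst, Pi.smul_apply, h.mid2,
      MvPolynomial.smul_eq_C_mul]
    ring

theorem Good.zero : Good P 0 0 0 where
  ord a s φ e := by simp
  fst v := by simp
  last q := by simp
  mid1 φ μ q := by simp
  mid2 φ μ q e := by simp

theorem Good.form {T : Module.End K (Sp P)} {ψ Δ} (h : Good P T ψ Δ) (v : Sp P) :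
    T v = (0, ((T v).2.1, (T v).2.2)) := by
  apply Prod.ext
  · exact h.fst v
  · rfl

theorem Good.mul {T T' : Module.End K (Sp P)} {ψ ψ' Δ Δ'} (h : Good P T ψ Δ)
    (h' : Good P T' ψ' Δ') :
    Good P (T * T') (ψ * ψ')
      (LinearMap.pi (fun e => LinearMap.mulLeft K ψ ∘ₗ LinearMap.proj e ∘ₗ Δ') +
        Δ ∘ₗ LinearMap.mulLeft K ψ') where
  ord r s φ e := by
    have h1 := h.ord r s (ψ' * φ) e
    have h2 := h'.ord r s φ e
    simp only [LinearMap.add_apply, Pi.add_apply, LinearMap.pi_apply, LinearMap.comp_apply,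
      LinearMap.proj_apply, LinearMap.mulLeft_apply]
    have e1 : ψ' * (r * (s * φ)) = r * (s * (ψ' * φ)) := by ring
    have e2 : ψ' * (s * φ) = s * (ψ' * φ) := by ring
    have e3 : ψ' * (r * φ) = r * (ψ' * φ) := by ring
    rw [e1, e2, e3]
    linear_combination h1 + ψ * h2
  fst v := by
    rw [Module.End.mul_apply, h.fst]
  last q := by
    rw [Module.End.mul_apply, h'.last, map_zero]
  mid1 φ μ q := by
    rw [Module.End.mul_apply, h'.form, h.mid1, h'.mid1]
    ring
  mid2 φ μ q e := by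
    rw [Module.End.mul_apply, h'.form, h.mid2, h'.mid1, h'.mid2]
    simp only [LinearMap.add_apply, Pi.add_apply, LinearMap.pi_apply, LinearMap.comp_apply,
      LinearMap.proj_apply, LinearMap.mulLeft_apply]
    ring

variable (P) in
/-- the algebra of good operators -/
def Alg : NonUnitalSubalgebra K (Module.End K (Sp P)) where
  carrier := {T | ∃ ψ Δ, Good P T ψ Δ}
  add_mem' := fun ⟨_, _, h⟩ ⟨_, _, h'⟩ => ⟨_, _, h.add h'⟩
  zero_mem' := ⟨_, _, Good.zero⟩
  mul_mem' := fun ⟨_, _, h⟩ ⟨_, _, h'⟩ => ⟨_, _, h.mul h'⟩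
  smul_mem' := fun r _ ⟨_, _, h⟩ => ⟨_, _, h.smul r⟩

/-- a good operator with `ψ = 0` and `Δ` linear over polynomials -/
theorem Good.comm {T T' : Module.End K (Sp P)} {ψ ψ' Δ Δ'} (h : Good P T ψ Δ)
    (h' : Good P T' ψ' Δ') : ∃ Γ, Good P (T * T' - T' * T) 0 Γ ∧
      ∀ r φ e, Γ (r * φ) e = r * Γ φ e := by
  have h1 := h.mul h'
  have h2 := (h'.mul h).smul (-1)
  have h3 := h1.add h2
  have e1 : T * T' + (-1 : K) • (T' * T) = T * T' - T' * T := by
    refine LinearMap.ext fun v => ?_
    rw [LinearMap.add_apply, LinearMap.smul_apply, LinearMap.sub_apply, neg_smul, one_smul,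
      sub_eq_add_neg]
  have e2 : ψ * ψ' + (-1 : K) • (ψ' * ψ) = 0 := by
    rw [neg_one_smul, mul_comm, add_neg_cancel]
  rw [e1, e2] at h3
  refine ⟨_, h3, ?_⟩
  intro r φ e
  have o1 := h.ord r ψ' φ e
  have o2 := h'.ord r ψ φ e
  simp only [LinearMap.add_apply, Pi.add_apply, LinearMap.pi_apply, LinearMap.comp_apply,
    LinearMap.proj_apply, LinearMap.mulLeft_apply, LinearMap.smul_apply,
    neg_smul, one_smul, Pi.neg_apply]
  have e3 : ψ' * (r * φ) = r * (ψ' * φ) := by ring
  have e4 : ψ * (r * φ) = r * (ψ * φ) := by ring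
  rw [e3, e4]
  linear_combination o1 - o2

theorem Good.kill {T : Module.End K (Sp P)} {ψ Δ} (h : Good P T ψ Δ) (v : Sp P)
    (h1 : v.1 = 0) (h2 : v.2.1.1 = 0) (h3 : ∀ e, v.2.1.2 e = 0) : T v = 0 := by
  have : v = (0, (0, v.2.2)) := by
    apply Prod.ext
    · exact h1
    · apply Prod.ext
      · apply Prod.ext
        · exact h2
        · funext e
          exact h3 e
      · rfl
  rw [this]
  exact h.last _

theorem Good.m1 {T : Module.End K (Sp P)} {ψ Δ} (h : Good P T ψ Δ) (v : Sp P)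
    (h1 : v.1 = 0) : (T v).2.1.1 = ψ * v.2.1.1 := by
  obtain ⟨a, ⟨φ, μ⟩, q⟩ := v
  subst h1
  exact h.mid1 φ μ q

theorem Good.m2 {T : Module.End K (Sp P)} {ψ Δ} (h : Good P T ψ Δ) (v : Sp P)
    (h1 : v.1 = 0) (e : E) : (T v).2.1.2 e = ψ * v.2.1.2 e + Δ v.2.1.1 e := by
  obtain ⟨a, ⟨φ, μ⟩, q⟩ := v
  subst h1
  exact h.mid2 φ μ q e

theorem Good.id1 {T T1 T2 T' : Module.End K (Sp P)} {ψ Δ Γ₁ Γ₂ ψ' Δ'} (h : Good P T ψ Δ)
    (h1 : Good P T1 0 Γ₁) (h2 : Good P T2 0 Γ₂) (h' : Good P T' ψ' Δ') :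
    T * T1 * T2 * T' = 0 := by
  refine LinearMap.ext fun v => ?_
  rw [Module.End.mul_apply, Module.End.mul_apply, Module.End.mul_apply, LinearMap.zero_apply]
  refine h.kill _ (h1.fst _) ?_ fun e => ?_
  · rw [h1.m1 _ (h2.fst _), zero_mul]
  · rw [h1.m2 _ (h2.fst _), h2.m1 _ (h'.fst _), zero_mul, zero_mul, map_zero, Pi.zero_apply,
      add_zero]

theorem Good.id2 {T T1 T2 T' : Module.End K (Sp P)} {ψ Δ Γ ψ₂ Δ₂ ψ' Δ'} (h : Good P T ψ Δ)
    (h1 : Good P T1 0 Γ) (hΓ : ∀ r φ e, Γ (r * φ) e = r * Γ φ e)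
    (h2 : Good P T2 ψ₂ Δ₂) (h' : Good P T' ψ' Δ') :
    T * (T1 * T2 - T2 * T1) * T' = 0 := by
  refine LinearMap.ext fun v => ?_
  rw [Module.End.mul_apply, Module.End.mul_apply, LinearMap.zero_apply, LinearMap.sub_apply,
    Module.End.mul_apply, Module.End.mul_apply]
  have f0 : (T' v).1 = 0 := h'.fst v
  refine h.kill _ ?_ ?_ fun e => ?_
  · rw [Prod.fst_sub, h1.fst, h2.fst, sub_zero]
  · rw [Prod.snd_sub, Prod.fst_sub, Prod.fst_sub, h1.m1 _ (h2.fst _), h2.m1 _ (h1.fst _),
      h1.m1 _ f0]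
    ring
  · rw [Prod.snd_sub, Prod.fst_sub, Prod.snd_sub, Pi.sub_apply, h1.m2 _ (h2.fst _),
      h2.m2 _ (h1.fst _), h1.m1 _ f0, h1.m2 _ f0, h2.m1 _ f0, hΓ, zero_mul, zero_mul, zero_mul,
      map_zero, Pi.zero_apply]
    ring

/-- The algebra of good operators satisfies the first identity. -/
theorem alg_id1 (x y z t w v : Alg P) :
    x * (y * z - z * y) * (t * w - w * t) * v = 0 := by
  obtain ⟨x, _, _, hx⟩ := x
  obtain ⟨y, _, _, hy⟩ := y
  obtain ⟨z, _, _, hz⟩ := z
  obtain ⟨t, _, _, ht⟩ := t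
  obtain ⟨w, _, _, hw⟩ := w
  obtain ⟨v, _, _, hv⟩ := v
  obtain ⟨Γ₁, g1, -⟩ := hy.comm hz
  obtain ⟨Γ₂, g2, -⟩ := ht.comm hw
  exact Subtype.ext (hx.id1 g1 g2 hv)

/-- The algebra of good operators satisfies the second identity. -/
theorem alg_id2 (x y z t v : Alg P) :
    x * ((y * z - z * y) * t - t * (y * z - z * y)) * v = 0 := by
  obtain ⟨x, _, _, hx⟩ := x
  obtain ⟨y, _, _, hy⟩ := y
  obtain ⟨z, _, _, hz⟩ := z
  obtain ⟨t, _, _, ht⟩ := t
  obtain ⟨v, _, _, hv⟩ := v
  obtain ⟨Γ, g, hΓ⟩ := hy.comm hz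
  exact Subtype.ext (hx.id2 g hΓ ht hv)

/-! The generators. -/

/-- the middle part -/
abbrev Mid (K : Type u) [Field K] (ι E : Type) : Type u :=
  MvPolynomial ι K × (E → MvPolynomial ι K)

/-- an operator on the middle part -/
noncomputable def opMid (P : PDE K ι J E) (f : Mid K ι E →ₗ[K] Mid K ι E) :
    Module.End K (Sp P) :=
  LinearMap.prod 0 (LinearMap.prod (f ∘ₗ LinearMap.fst K _ _ ∘ₗ LinearMap.snd K _ _) 0)

theorem opMid_apply (f : Mid K ι E →ₗ[K] Mid K ι E) (v : Sp P) :
    opMid P f v = (0, (f v.2.1, 0)) := rfl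

noncomputable def opX (P : PDE K ι J E) (i : ι) : Module.End K (Sp P) :=
  opMid P (LinearMap.prod (LinearMap.mulLeft K (X i) ∘ₗ LinearMap.fst K _ _)
    (LinearMap.pi fun e => LinearMap.mulLeft K (X i) ∘ₗ LinearMap.proj e ∘ₗ
      LinearMap.snd K _ _))

theorem opX_apply (i : ι) (v : Sp P) :
    opX P i v = (0, ((X i * v.2.1.1, fun e => X i * v.2.1.2 e), 0)) := rfl

noncomputable def opT (P : PDE K ι J E) (j : J) : Module.End K (Sp P) :=
  opMid P (LinearMap.prod 0 ((LinearMap.pi fun e => (D (P.d e j)).toLinearMap) ∘ₗ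
    LinearMap.fst K _ _))

theorem opT_apply (j : J) (v : Sp P) :
    opT P j v = (0, ((0, fun e => D (P.d e j) v.2.1.1), 0)) := rfl

noncomputable def opM [DecidableEq E] (P : PDE K ι J E) (e : E) : Module.End K (Sp P) :=
  opMid P (LinearMap.prod 0 (LinearMap.single K (fun _ => MvPolynomial ι K) e ∘ₗ
    LinearMap.fst K _ _))

theorem opM_apply [DecidableEq E] (e : E) (v : Sp P) :
    opM P e v = (0, ((0, Pi.single e v.2.1.1), 0)) := rfl

noncomputable def opA (P : PDE K ι J E) : Module.End K (Sp P) :=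
  LinearMap.prod 0 (LinearMap.prod 0 (P.range.mkQ ∘ₗ LinearMap.snd K _ _ ∘ₗ
    LinearMap.fst K _ _ ∘ₗ LinearMap.snd K _ _))

theorem opA_apply (v : Sp P) : opA P v = (0, (0, P.range.mkQ v.2.1.2)) := rfl

noncomputable def opB (P : PDE K ι J E) : Module.End K (Sp P) :=
  LinearMap.prod 0 (LinearMap.prod (LinearMap.prod
    (Algebra.linearMap K (MvPolynomial ι K) ∘ₗ LinearMap.fst K _ _) 0) 0)

theorem opB_apply (v : Sp P) : opB P v = (0, ((algebraMap K _ v.1, 0), 0)) := rfl

noncomputable def gen [DecidableEq E] (P : PDE K ι J E) : Gen ι J E → Module.End K (Sp P)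
  | .a => opA P
  | .b => opB P
  | .x i => opX P i
  | .t j => opT P j
  | .m e => opM P e

theorem gen_mem [DecidableEq E] (g : Gen ι J E) : gen P g ∈ Alg P := by
  cases g with
  | a =>
    refine ⟨0, 0, ?_, ?_, ?_, ?_, ?_⟩
    · intro r s φ e; simp
    · intro v; rfl
    · intro q; simp [gen, opA_apply]
    · intro φ μ q; simp [gen, opA_apply]
    · intro φ μ q e; simp [gen, opA_apply]
  | b =>
    refine ⟨0, 0, ?_, ?_, ?_, ?_, ?_⟩
    · intro r s φ e; simp
    · intro v; rfl
    · intro q; simp [gen, opB_apply]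
    · intro φ μ q; simp [gen, opB_apply]
    · intro φ μ q e; simp [gen, opB_apply]
  | x i =>
    refine ⟨X i, 0, ?_, ?_, ?_, ?_, ?_⟩
    · intro r s φ e; simp
    · intro v; rfl
    · intro q; simp [gen, opX_apply]; rfl
    · intro φ μ q; simp [gen, opX_apply]
    · intro φ μ q e; simp [gen, opX_apply]
  | t j =>
    refine ⟨0, LinearMap.pi fun e => (D (P.d e j)).toLinearMap, ?_, ?_, ?_, ?_, ?_⟩
    · intro r s φ e
      simp only [LinearMap.pi_apply, Derivation.coeFn_coe]
      simp only [D_mul]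
      ring
    · intro v; rfl
    · intro q; simp [gen, opT_apply]; rfl
    · intro φ μ q; simp [gen, opT_apply]
    · intro φ μ q e; simp [gen, opT_apply]
  | m e =>
    refine ⟨0, LinearMap.single K (fun _ => MvPolynomial ι K) e, ?_, ?_, ?_, ?_, ?_⟩
    · intro r s φ e'
      simp only [LinearMap.single_apply, Pi.single_apply]
      split_ifs <;> ring
    · intro v; rfl
    · intro q; simp [gen, opM_apply]
    · intro φ μ q; simp [gen, opM_apply]
    · intro φ μ q e; simp [gen, opM_apply]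

theorem lift_opX (c : FreeAlgebra K ι) (v : Sp P) :
    (FreeAlgebra.lift K (fun i => opX P i) c v).2.1.2 = fun e =>
      FreeAlgebra.lift K (fun i => (X i : MvPolynomial ι K)) c * v.2.1.2 e := by
  induction c using FreeAlgebra.induction generalizing v with
  | grade0 r =>
    rw [AlgHom.commutes, AlgHom.commutes]
    funext e
    simp [Module.algebraMap_end_apply, Algebra.smul_def]
  | grade1 i =>
    simp [opX_apply]
  | mul p q hp hq =>
    rw [map_mul, Module.End.mul_apply, hp, hq]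
    funext e
    rw [map_mul, mul_assoc]
  | add p q hp hq =>
    rw [map_add, LinearMap.add_apply, Prod.snd_add, Prod.fst_add, Prod.snd_add, hp, hq]
    funext e
    rw [Pi.add_apply, map_add, add_mul]

theorem holds_gen [Fintype E] [DecidableEq E] (P : PDE K ι J E) : Holds P (gen P) where
  xx i i' := by
    refine LinearMap.ext fun v => ?_
    simp only [gen, LinearMap.sub_apply, Module.End.mul_apply, opX_apply, LinearMap.zero_apply]
    rw [sub_eq_zero]
    simp only [mul_left_comm (X i) (X i')]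
  xm i e := by
    refine LinearMap.ext fun v => ?_
    simp only [gen, LinearMap.sub_apply, Module.End.mul_apply, opX_apply, opM_apply,
      LinearMap.zero_apply, mul_zero]
    rw [sub_eq_zero]
    congr 3
    funext e'
    simp only [Pi.single_apply]
    split_ifs <;> simp
  tx j i := by
    refine LinearMap.ext fun v => ?_
    simp only [gen, LinearMap.sub_apply, Module.End.mul_apply, opX_apply, opM_apply, opT_apply,
      LinearMap.zero_apply, LinearMap.sum_apply, LinearMap.smul_apply, mul_zero]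
    apply Prod.ext
    · simp [Prod.fst_sum]
    · apply Prod.ext
      · apply Prod.ext
        · simp [Prod.fst_sum, Prod.snd_sum]
        · funext e
          simp [Prod.fst_sum, Prod.snd_sum, Finset.sum_apply, Pi.single_apply, D_X]
          rw [mul_comm, sub_self]
      · simp [Prod.snd_sum]
  at' j := by
    refine LinearMap.ext fun v => ?_
    simp only [gen, LinearMap.add_apply, Module.End.mul_apply, opA_apply, opM_apply, opT_apply,
      LinearMap.zero_apply, LinearMap.sum_apply, lift_opX]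
    apply Prod.ext
    · simp [Prod.fst_sum]
    · apply Prod.ext
      · simp [Prod.fst_sum, Prod.snd_sum]
      · simp only [Prod.snd_add, Prod.snd_sum, Prod.snd_zero]
        rw [← map_sum, ← map_add, Submodule.mkQ_apply, Submodule.Quotient.mk_eq_zero]
        have : (fun e => (D (P.d e j)) v.2.1.1) + ∑ x, (fun e =>
            ((FreeAlgebra.lift K) fun i => (X i : MvPolynomial ι K)) (P.c x j) *
              (Pi.single x v.2.1.1 : E → MvPolynomial ι K) e) = P.col j v.2.1.1 := by
          funext e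
          rw [PDE.col_apply, Pi.add_apply, Finset.sum_apply]
          congr 1
          rw [Finset.sum_eq_single e (fun x _ hx => by simp [Pi.single_eq_of_ne hx.symm])
            (fun h => absurd (Finset.mem_univ _) h), Pi.single_eq_same]
          rfl
        rw [this]
        exact Submodule.mem_iSup_of_mem j ⟨_, rfl⟩
  tb j := by
    refine LinearMap.ext fun v => ?_
    simp only [gen, Module.End.mul_apply, opB_apply, opT_apply, LinearMap.zero_apply]
    simp only [Derivation.map_algebraMap]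
    rfl

theorem word_apply [DecidableEq E] (P : PDE K ι J E) (e₀ : E) (w : List ι) :
    ((gen P .a * (w.map fun i => gen P (.x i)).prod * gen P (.m e₀) * gen P .b) (1, 0)).2.2 =
      P.range.mkQ (Pi.single e₀ (w.map X).prod) := by
  have h1 : (gen P (.m e₀) * gen P .b) (1, 0) = (0, ((0, Pi.single e₀ 1), 0)) := by
    simp [gen, opM_apply, opB_apply]
  have h2 : ∀ w : List ι, (w.map fun i => gen P (.x i)).prod (0, ((0, Pi.single e₀ 1), 0)) =
      (0, ((0, Pi.single e₀ (w.map X).prod), 0)) := by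
    intro w
    induction w with
    | nil => rfl
    | cons i w ih =>
      rw [List.map_cons, List.prod_cons, Module.End.mul_apply, ih, List.map_cons,
        List.prod_cons]
      simp only [gen, opX_apply, mul_zero]
      congr 3
      funext e'
      simp only [Pi.single_apply]
      split_ifs <;> simp
  rw [mul_assoc, mul_assoc, Module.End.mul_apply, Module.End.mul_apply, h1, h2]
  rfl

end Pool.Agent.Helper844.WP
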