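import Mathlib
import Pool.Agent.Helper844.WP.Defs
import Pool.Agent.Helper844.WP.Easy
import Pool.Agent.Helper844.WP.Model
import Pool.Agent.Helper844.WP.Dioph

/-! The word problem is undecidable in every variety that contains `W_K`. -/

set_option autoImplicit false

namespace Pool.Agent.Helper844.WP

open MvPolynomial
open Pool.Agent.Helper844.Sys Pool.Agent.Helper844.Dio
open Nat.Partrec (Code)

universe u

theorem comp_pred {α β : Type*} [Primcodable α] [Primcodable β] {p : β → Prop} {g : α → β}
    (hp : ComputablePred p) (hg : Computable g) : ComputablePred (fun a => p (g a)) := by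
  obtain ⟨f, hf, rfl⟩ := ComputablePred.computable_iff.1 hp
  exact ComputablePred.computable_iff.2 ⟨fun a => f (g a), hf.comp hg, rfl⟩

/-- a recursively enumerable set that is not computable -/
theorem exists_halting : ∃ S : ℕ → Prop, REPred S ∧ ¬ ComputablePred S := by
  refine ⟨fun n => (Code.eval (Denumerable.ofNat Code n) 0).Dom, ?_, ?_⟩
  · have h1 : Partrec fun n : ℕ => Code.eval (Denumerable.ofNat Code n) 0 :=
      Code.eval_part.comp (Computable.ofNat Code) (Computable.const 0)
    exact h1.dom_re
  · intro h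
    have h2 := comp_pred h (Computable.encode (α := Code))
    refine ComputablePred.halting_problem 0 (h2.of_eq fun c => ?_)
    rw [Denumerable.ofNat_encode]

variable {K : Type u} [Field K] {ι J E : Type}

section
variable [Fintype E]

/-- the relations as a set -/
def relSet (P : PDE K ι J E) {Q : Type*} [Ring Q] [Algebra K Q] (g : Gen ι J E → Q) : Set Q :=
  Set.range (fun p : ι × ι => g (.x p.1) * g (.x p.2) - g (.x p.2) * g (.x p.1)) ∪
  Set.range (fun p : ι × E => g (.x p.1) * g (.m p.2) - g (.m p.2) * g (.x p.1)) ∪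
  Set.range (fun p : J × ι => g (.t p.1) * g (.x p.2) - g (.x p.2) * g (.t p.1) -
    ∑ e, P.d e p.1 p.2 • (g (.x p.2) * g (.m e))) ∪
  Set.range (fun j : J => g .a * g (.t j) +
    ∑ e, g .a * FreeAlgebra.lift K (fun i => g (.x i)) (P.c e j) * g (.m e)) ∪
  Set.range (fun j : J => g (.t j) * g .b)

theorem holds_iff (P : PDE K ι J E) {Q : Type*} [Ring Q] [Algebra K Q] (g : Gen ι J E → Q) :
    Holds P g ↔ ∀ r ∈ relSet P g, r = 0 := by
  constructor
  · intro h r hr
    rcases hr with (((⟨p, rfl⟩ | ⟨p, rfl⟩) | ⟨p, rfl⟩) | ⟨j, rfl⟩) | ⟨j, rfl⟩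
    · exact h.xx _ _
    · exact h.xm _ _
    · exact h.tx _ _
    · exact h.at' _
    · exact h.tb _
  · intro h
    refine ⟨fun i i' => h _ ?_, fun i e => h _ ?_, fun j i => h _ ?_, fun j => h _ ?_,
      fun j => h _ ?_⟩
    · exact Or.inl (Or.inl (Or.inl (Or.inl ⟨(i, i'), rfl⟩)))
    · exact Or.inl (Or.inl (Or.inl (Or.inr ⟨(i, e), rfl⟩)))
    · exact Or.inl (Or.inl (Or.inr ⟨(j, i), rfl⟩))
    · exact Or.inl (Or.inr ⟨j, rfl⟩)
    · exact Or.inr ⟨j, rfl⟩

theorem relSet_map (P : PDE K ι J E) {Q Q' : Type*} [Ring Q] [Algebra K Q] [Ring Q']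
    [Algebra K Q'] (g : Gen ι J E → Q) (φ : Q →ₐ[K] Q') :
    relSet P (fun y => φ (g y)) = φ '' relSet P g := by
  have h1 : ∀ c : FreeAlgebra K ι, FreeAlgebra.lift K (fun i => φ (g (.x i))) c =
      φ (FreeAlgebra.lift K (fun i => g (.x i)) c) := by
    intro c
    have : φ.comp (FreeAlgebra.lift K (fun i => g (.x i))) =
        FreeAlgebra.lift K (fun i => φ (g (.x i))) := by
      apply FreeAlgebra.hom_ext
      funext i
      simp
    exact (DFunLike.congr_fun this c).symm
  simp only [relSet, Set.image_union, ← Set.range_comp, Function.comp_def, map_sub, map_mul,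
    map_add, map_sum, map_smul, h1]

end

theorem constTerm_ι {X : Type} (x : X) : constTerm (FreeAlgebra.ι K x) = 0 := by
  simp [constTerm]

theorem lift_comp {X : Type} {Q Q' : Type*} [Semiring Q] [Algebra K Q] [Semiring Q']
    [Algebra K Q'] (s : X → Q) (φ : Q →ₐ[K] Q') (f : FreeAlgebra K X) :
    φ (FreeAlgebra.lift K s f) = FreeAlgebra.lift K (fun i => φ (s i)) f := by
  have : φ.comp (FreeAlgebra.lift K s) = FreeAlgebra.lift K (fun i => φ (s i)) := by
    apply FreeAlgebra.hom_ext
    funext i
    simp
  exact DFunLike.congr_fun this f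

/-- the algebra of the model lies in `W_K` -/
theorem alg_inW (P : PDE K ι J E) : InVariety (W K) (Alg P) := by
  intro f hf v
  simp only [W, Set.mem_insert_iff, Set.mem_singleton_iff] at hf
  rcases hf with rfl | rfl
  · simp only [var, comm, map_mul, map_sub, FreeAlgebra.lift_ι_apply]
    simp only [← Unitization.inr_mul, ← Unitization.inr_sub, alg_id1, Unitization.inr_zero]
  · simp only [var, comm, map_mul, map_sub, FreeAlgebra.lift_ι_apply]
    simp only [← Unitization.inr_mul, ← Unitization.inr_sub, alg_id2, Unitization.inr_zero]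

variable [Fintype E] [DecidableEq E]

theorem word_iff (P : PDE K ι J E) (I : Set (FreeAlgebra K ℕ))
    (hW : Contains I (W K)) {n : ℕ} (e : Gen ι J E ≃ Fin n)
    (R : Finset (FreeAlgebra K (Fin n)))
    (hR : (R : Set (FreeAlgebra K (Fin n))) = relSet P (fun y => FreeAlgebra.ι K (e y)))
    (e₀ : E) (w : List ι) :
    FreeAlgebra.ι K (e .a) * (w.map fun i => FreeAlgebra.ι K (e (.x i))).prod *
      FreeAlgebra.ι K (e (.m e₀)) * FreeAlgebra.ι K (e .b) ∈ relations I n R ↔
    (Pi.single e₀ (w.map X).prod : E → MvPolynomial ι K) ∈ P.range := by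
  constructor
  · intro h
    let Ψ : FreeAlgebra K (Fin n) →ₐ[K] Unitization K (Alg P) :=
      FreeAlgebra.lift K (fun k => Unitization.inr ⟨gen P (e.symm k), gen_mem _⟩)
    let Λ : Unitization K (Alg P) →ₐ[K] Module.End K (Sp P) :=
      Unitization.lift (NonUnitalSubalgebraClass.subtype (Alg P))
    have hΛ : ∀ y, Λ (Ψ (FreeAlgebra.ι K (e y))) = gen P y := by
      intro y
      simp [Λ, Ψ]
    have hker : relations I n R ≤ TwoSidedIdeal.ker (Λ.comp Ψ) := by
      rw [relations, TwoSidedIdeal.span_le]
      rintro x (⟨f, hf, s, hs, rfl⟩ | hx)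
      · have hfst : ∀ y, (Ψ y).fst = constTerm y := by
          intro y
          have : (Unitization.fstHom K (Alg P)).comp Ψ = constTerm := by
            apply FreeAlgebra.hom_ext
            funext i
            simp [Ψ, constTerm]
          exact DFunLike.congr_fun this y
        have ha : ∀ i, Ψ (s i) = Unitization.inr (Ψ (s i)).snd := by
          intro i
          apply Unitization.ext
          · rw [hfst, hs, Unitization.fst_inr]
          · rw [Unitization.snd_inr]
        have h2 : Ψ (FreeAlgebra.lift K s f) = 0 := by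
          rw [lift_comp]
          have h3 := hW (Alg P) (alg_inW P) f hf (fun i => (Ψ (s i)).snd)
          rw [← h3]
          congr 2
          funext i
          exact ha i
        show _ ∈ TwoSidedIdeal.ker (Λ.comp Ψ)
        rw [TwoSidedIdeal.mem_ker, AlgHom.comp_apply, h2, map_zero]
      · rw [hR] at hx
        show _ ∈ TwoSidedIdeal.ker (Λ.comp Ψ)
        rw [TwoSidedIdeal.mem_ker]
        have h4 : (Λ.comp Ψ) x ∈ relSet P (fun y => (Λ.comp Ψ) (FreeAlgebra.ι K (e y))) := by
          rw [relSet_map]
          exact ⟨x, hx, rfl⟩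
        have h5 : (fun y => (Λ.comp Ψ) (FreeAlgebra.ι K (e y))) = gen P := by
          funext y
          exact hΛ y
        rw [h5] at h4
        exact (holds_iff P _).1 (holds_gen P) _ h4
    have h1 := hker h
    rw [TwoSidedIdeal.mem_ker] at h1
    have h2 : gen P .a * (w.map fun i => gen P (.x i)).prod * gen P (.m e₀) * gen P .b = 0 := by
      rw [← h1]
      simp only [map_mul, map_list_prod, List.map_map, AlgHom.comp_apply, hΛ]
      congr 5
      funext i
      exact (hΛ (.x i)).symm
    have h3 := word_apply P e₀ w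
    rw [h2, Submodule.mkQ_apply] at h3
    exact (Submodule.Quotient.mk_eq_zero _).1 h3.symm
  · intro h
    let q : FreeAlgebra K (Fin n) →ₐ[K] (relations I n R).ringCon.Quotient :=
      { (relations I n R).ringCon.mk' with
        commutes' := fun r => rfl }
    have hq : ∀ y, q y = 0 ↔ y ∈ relations I n R := by
      intro y
      rw [TwoSidedIdeal.mem_iff]
      exact RingCon.eq (c := (relations I n R).ringCon)
    have hH : Holds P (fun y => q (FreeAlgebra.ι K (e y))) := by
      rw [holds_iff, relSet_map]
      rintro _ ⟨x, hx, rfl⟩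
      rw [hq]
      refine TwoSidedIdeal.subset_span (Or.inr ?_)
      rw [hR]
      exact hx
    have h1 := easy P _ hH e₀ w h
    rw [← hq, ← h1]
    simp only [map_mul, map_list_prod, List.map_map, Function.comp_def]

omit [Fintype E] [DecidableEq E]

theorem undecidable (K : Type u) [Field K] [CharZero K] (ν : ℕ → K)
    (hν : Function.Surjective ν) (I : Set (FreeAlgebra K ℕ)) (hW : Contains I (W K)) :
    ¬ WordProblemDecidable ν I := by
  classical
  intro hdec
  obtain ⟨S, hS, hnc⟩ := exists_halting
  obtain ⟨V, _, f, L, hL⟩ := exists_system S (dprm hS)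
  let P := thePDE K L f
  obtain ⟨n, ⟨e⟩⟩ := Finite.exists_equiv_fin
    (Gen (V ⊕ V) (Unit ⊕ (Fin L.length ⊕ (V ⊕ V))) (Unit ⊕ (Fin L.length ⊕ Fin L.length)))
  have hfin : (relSet P (fun y => FreeAlgebra.ι K (e y))).Finite := by
    refine Set.Finite.union (Set.Finite.union (Set.Finite.union (Set.Finite.union ?_ ?_) ?_) ?_) ?_
    all_goals exact Set.finite_range _
  let R : Finset (FreeAlgebra K (Fin n)) := hfin.toFinset
  have hR : (R : Set (FreeAlgebra K (Fin n))) = relSet P (fun y => FreeAlgebra.ι K (e y)) :=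
    hfin.coe_toFinset
  have hconst : ∀ r ∈ R, constTerm r = 0 := by
    intro r hr
    have hr' : r ∈ relSet P (fun y => FreeAlgebra.ι K (e y)) := by
      rw [← hR]
      exact hr
    rcases hr' with (((⟨p, rfl⟩ | ⟨p, rfl⟩) | ⟨p, rfl⟩) | ⟨j, rfl⟩) | ⟨j, rfl⟩
    all_goals simp only [map_sub, map_mul, map_add, map_sum, map_smul, constTerm_ι, mul_zero,
      zero_mul, sub_zero, add_zero, smul_zero, Finset.sum_const_zero]
  obtain ⟨c, hc⟩ := hν 1
  let e₀ : Unit ⊕ (Fin L.length ⊕ Fin L.length) := Sum.inl ()
  let word : ℕ → List (ℕ × Fin n × List (Fin n)) := fun k =>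
    [(c, e .a, e (.x (.inl f)) :: (List.replicate (4 * k) (e (.x (.inr f))) ++
      [e (.m e₀), e .b]))]
  have hword : Computable word := by
    have h0 : Primrec fun k : ℕ => (List.range (4 * k)).map (fun _ => e (.x (.inr f))) :=
      Primrec.list_map (Primrec.list_range.comp (Primrec.nat_mul.comp (Primrec.const 4)
        Primrec.id)) (Primrec.const _).to₂
    have h1 : Primrec fun k : ℕ => List.replicate (4 * k) (e (.x (.inr f))) := by
      refine h0.of_eq fun k => ?_
      rw [List.map_const', List.length_range]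
    have h2 : Primrec word := by
      refine Primrec.list_cons.comp ?_ (Primrec.const [])
      refine Primrec.pair (Primrec.const c) (Primrec.pair (Primrec.const _) ?_)
      exact Primrec.list_cons.comp (Primrec.const _)
        (Primrec.list_append.comp h1 (Primrec.const _))
    exact h2.to_comp
  have h1 := comp_pred (hdec n R hconst) hword
  refine hnc (h1.of_eq fun k => ?_)
  have h2 : element ν (word k) = FreeAlgebra.ι K (e .a) *
      ((Sum.inl f :: List.replicate (4 * k) (Sum.inr f)).map
        fun i => FreeAlgebra.ι K (e (.x i))).prod *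
      FreeAlgebra.ι K (e (.m e₀)) * FreeAlgebra.ι K (e .b) := by
    simp only [element, word, List.map_cons, List.map_nil, List.sum_cons, List.sum_nil, hc,
      one_smul, add_zero, List.map_append, List.map_replicate, List.prod_cons, List.prod_append,
      List.prod_nil, mul_one, mul_assoc]
  rw [h2, word_iff P I hW e R hR e₀, List.map_cons, List.map_replicate, List.prod_cons,
    List.prod_replicate]
  have h3 := solve_iff (K := K) L f k
  rw [pow_one] at h3
  rw [h3, hL]
  constructor
  · rintro ⟨n, hn, h⟩
    have : n = k := by omega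
    rwa [← this]
  · intro h
    exact ⟨k, h, rfl⟩

end Pool.Agent.Helper844.WP
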