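import Mathlib

/-! Varieties of not necessarily associative algebras and their word problems. -/

set_option autoImplicit false

namespace Pool.Agent.Helper844.WPN

universe u

variable {F : Type u} [Field F]

/-- `ν` is a numbering of the elements of the field `F` by natural numbers for which addition,
multiplication, negation, inversion of nonzero elements and the test for equality are computable:
it makes `F` a computable field. -/
structure IsComputableField (ν : ℕ → F) : Prop where
  surjective : Function.Surjective ν
  add : ∃ f : ℕ → ℕ → ℕ, Computable₂ f ∧ ∀ a b, ν (f a b) = ν a + ν b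
  mul : ∃ f : ℕ → ℕ → ℕ, Computable₂ f ∧ ∀ a b, ν (f a b) = ν a * ν b
  neg : ∃ f : ℕ → ℕ, Computable f ∧ ∀ a, ν (f a) = - ν a
  inv : ∃ f : ℕ → ℕ, Computable f ∧ ∀ a, ν a ≠ 0 → ν (f a) = (ν a)⁻¹
  eq : ComputablePred fun p : ℕ × ℕ => ν p.1 = ν p.2

/-- The algebra `A` (no associativity is assumed) lies in the variety defined by the set `I` of
polynomial identities: all values of all `f ∈ I` in `A` are zero. -/
def InVariety (I : Set (FreeNonUnitalNonAssocAlgebra F ℕ)) (A : Type u) [NonUnitalNonAssocRing A]
    [Module F A] [IsScalarTower F A A] [SMulCommClass F A A] : Prop :=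
  ∀ f ∈ I, ∀ v : ℕ → A, FreeNonUnitalNonAssocAlgebra.lift F v f = 0

/-- The nonassociative polynomial `w` is zero in the algebra that is finitely presented, in the
variety defined by `I`, by the generators `x_0, …, x_{n-1}` and the relations `r = 0`, `r ∈ R`:
it vanishes whenever the generators are replaced by elements, satisfying the relations, of an
algebra of the variety. -/
def IsZero (I : Set (FreeNonUnitalNonAssocAlgebra F ℕ)) (n : ℕ)
    (R : Finset (FreeNonUnitalNonAssocAlgebra F (Fin n)))
    (w : FreeNonUnitalNonAssocAlgebra F (Fin n)) : Prop :=
  ∀ (A : Type u) [NonUnitalNonAssocRing A] [Module F A] [IsScalarTower F A A]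
    [SMulCommClass F A A], InVariety I A → ∀ v : Fin n → A,
    (∀ r ∈ R, FreeNonUnitalNonAssocAlgebra.lift F v r = 0) →
    FreeNonUnitalNonAssocAlgebra.lift F v w = 0

/-- Stack machine that reads a monomial in reverse Polish notation: `some i` puts the generator
`x_i` on the stack and `none` multiplies the two top entries. -/
noncomputable def run (F : Type u) [Field F] {n : ℕ} :
    List (FreeNonUnitalNonAssocAlgebra F (Fin n)) → List (Option (Fin n)) →
      List (FreeNonUnitalNonAssocAlgebra F (Fin n))
  | s, [] => s
  | s, some i :: l => run F (FreeNonUnitalNonAssocAlgebra.of F i :: s) l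
  | b :: a :: s, none :: l => run F (a * b :: s) l
  | s, none :: l => run F s l

/-- The nonassociative polynomial coded by a list of coefficients and monomials; the coefficients
are given by their numbers and the monomials, arbitrarily bracketed, in reverse Polish notation. -/
noncomputable def polynomial (ν : ℕ → F) {n : ℕ} (l : List (ℕ × List (Option (Fin n)))) :
    FreeNonUnitalNonAssocAlgebra F (Fin n) :=
  (l.map fun t => ν t.1 • (run F [] t.2).headD 0).sum

/-- The algebra finitely presented by `R` in the variety defined by `I` has solvable word
problem. -/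
def SolvableWordProblem (ν : ℕ → F) (I : Set (FreeNonUnitalNonAssocAlgebra F ℕ)) (n : ℕ)
    (R : Finset (FreeNonUnitalNonAssocAlgebra F (Fin n))) : Prop :=
  ComputablePred fun l : List (ℕ × List (Option (Fin n))) => IsZero I n R (polynomial ν l)

end Pool.Agent.Helper844.WPN
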