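import Mathlib
import Pool.Agent.Helper844.WP.NonAssocDefs
import Pool.Agent.Helper844.WP.Main

/-! From associative to nonassociative presentations. -/

set_option autoImplicit false

namespace Pool.Agent.Helper844.WPN

universe u

open Pool.Agent.Helper844.WP (constTerm relations values IsIdentity lift_comp constTerm_ι element
  Contains W WordProblemDecidable)

variable {F : Type u} [Field F]

/-- the image in the associative polynomials -/
noncomputable def toAssoc (F : Type u) [Field F] (X : Type) :
    FreeNonUnitalNonAssocAlgebra F X →ₙₐ[F] FreeAlgebra F X :=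
  FreeNonUnitalNonAssocAlgebra.lift F (FreeAlgebra.ι F)

theorem toAssoc_of {X : Type} (x : X) :
    toAssoc F X (FreeNonUnitalNonAssocAlgebra.of F x) = FreeAlgebra.ι F x :=
  FreeNonUnitalNonAssocAlgebra.lift_of_apply ..

theorem constTerm_toAssoc {X : Type} (u : FreeNonUnitalNonAssocAlgebra F X) :
    constTerm (toAssoc F X u) = 0 := by
  have : ((constTerm : FreeAlgebra F X →ₐ[F] F) : FreeAlgebra F X →ₙₐ[F] F).comp (toAssoc F X) =
      0 := by
    apply FreeNonUnitalNonAssocAlgebra.hom_ext
    intro x
    rw [NonUnitalAlgHom.comp_apply, toAssoc_of]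
    exact constTerm_ι x
  exact DFunLike.congr_fun this u

theorem exists_pre {X : Type} (w : FreeAlgebra F X) :
    ∃ u, toAssoc F X u + algebraMap F _ (constTerm w) = w := by
  induction w using FreeAlgebra.induction with
  | grade0 r => exact ⟨0, by simp⟩
  | grade1 x => exact ⟨FreeNonUnitalNonAssocAlgebra.of F x, by simp [toAssoc_of, constTerm_ι]⟩
  | mul a b ha hb =>
    obtain ⟨u, hu⟩ := ha
    obtain ⟨v, hv⟩ := hb
    refine ⟨u * v + constTerm a • v + constTerm b • u, ?_⟩
    rw [map_add, map_add, map_mul, map_smul, map_smul, map_mul]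
    conv_rhs => rw [← hu, ← hv]
    simp only [Algebra.smul_def, map_mul]
    rw [Algebra.commutes (constTerm b) (toAssoc F X u)]
    noncomm_ring
  | add a b ha hb =>
    obtain ⟨u, hu⟩ := ha
    obtain ⟨v, hv⟩ := hb
    refine ⟨u + v, ?_⟩
    rw [map_add, map_add, map_add]
    conv_rhs => rw [← hu, ← hv]
    abel

/-- values in a unital associative algebra -/
theorem lift_unital {X : Type} {Q : Type u} [Ring Q] [Algebra F Q] (v : X → Q)
    (f : FreeNonUnitalNonAssocAlgebra F X) :
    FreeAlgebra.lift F v (toAssoc F X f) = FreeNonUnitalNonAssocAlgebra.lift F v f := by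
  have : ((FreeAlgebra.lift F v : FreeAlgebra F X →ₐ[F] Q) : FreeAlgebra F X →ₙₐ[F] Q).comp
      (toAssoc F X) = FreeNonUnitalNonAssocAlgebra.lift F v := by
    apply FreeNonUnitalNonAssocAlgebra.hom_ext
    intro x
    rw [NonUnitalAlgHom.comp_apply, toAssoc_of, FreeNonUnitalNonAssocAlgebra.lift_of_apply]
    exact FreeAlgebra.lift_ι_apply _ _
  exact DFunLike.congr_fun this f

theorem map_lift {X : Type} {A B : Type u} [NonUnitalNonAssocRing A] [Module F A]
    [IsScalarTower F A A] [SMulCommClass F A A] [NonUnitalNonAssocRing B] [Module F B]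
    [IsScalarTower F B B] [SMulCommClass F B B] (φ : A →ₙₐ[F] B) (v : X → A)
    (f : FreeNonUnitalNonAssocAlgebra F X) :
    φ (FreeNonUnitalNonAssocAlgebra.lift F v f) =
      FreeNonUnitalNonAssocAlgebra.lift F (fun x => φ (v x)) f := by
  have : φ.comp (FreeNonUnitalNonAssocAlgebra.lift F v) =
      FreeNonUnitalNonAssocAlgebra.lift F (fun x => φ (v x)) := by
    apply FreeNonUnitalNonAssocAlgebra.hom_ext
    intro x
    simp
  exact DFunLike.congr_fun this f

theorem inr_lift {X : Type} {A : Type u} [NonUnitalRing A] [Module F A]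
    [IsScalarTower F A A] [SMulCommClass F A A] (v : X → A)
    (f : FreeNonUnitalNonAssocAlgebra F X) :
    FreeAlgebra.lift F (fun i => (Unitization.inr (v i) : Unitization F A)) (toAssoc F X f) =
      Unitization.inr (FreeNonUnitalNonAssocAlgebra.lift F v f) := by
  rw [lift_unital]
  exact (map_lift (Unitization.inrNonUnitalAlgHom F A) v f).symm

/-- Being zero in the sense of the presented algebra is membership in the ideal. -/
theorem isZero_iff (I : Set (FreeNonUnitalNonAssocAlgebra F ℕ))
    (hassoc : ∀ (A : Type u) [NonUnitalNonAssocRing A] [Module F A] [IsScalarTower F A A]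
      [SMulCommClass F A A], InVariety I A → ∀ a b c : A, a * b * c = a * (b * c))
    {n : ℕ} (R : Finset (FreeNonUnitalNonAssocAlgebra F (Fin n)))
    (R' : Finset (FreeAlgebra F (Fin n)))
    (hR : (R' : Set (FreeAlgebra F (Fin n))) = toAssoc F (Fin n) '' R)
    (w : FreeNonUnitalNonAssocAlgebra F (Fin n)) :
    IsZero I n R w ↔ toAssoc F (Fin n) w ∈ relations (toAssoc F ℕ '' I) n R' := by
  constructor
  · intro h
    let J := relations (toAssoc F ℕ '' I) n R'
    let q : FreeAlgebra F (Fin n) →ₐ[F] J.ringCon.Quotient :=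
      { J.ringCon.mk' with
        commutes' := fun r => rfl }
    have hq : ∀ y, q y = 0 ↔ y ∈ J := by
      intro y
      rw [TwoSidedIdeal.mem_iff]
      exact RingCon.eq (c := J.ringCon)
    let B : NonUnitalSubalgebra F J.ringCon.Quotient :=
      { carrier := {x | ∃ u, constTerm u = 0 ∧ q u = x}
        add_mem' := by
          rintro _ _ ⟨u, hu, rfl⟩ ⟨v, hv, rfl⟩
          exact ⟨u + v, by rw [map_add, hu, hv, add_zero], map_add _ _ _⟩
        zero_mem' := ⟨0, map_zero _, map_zero _⟩
        mul_mem' := by
          rintro _ _ ⟨u, hu, rfl⟩ ⟨v, hv, rfl⟩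
          exact ⟨u * v, by rw [map_mul, hu, zero_mul], map_mul _ _ _⟩
        smul_mem' := by
          rintro r _ ⟨u, hu, rfl⟩
          exact ⟨r • u, by rw [map_smul, hu, smul_zero], map_smul _ _ _⟩ }
    have hval : ∀ {X : Type} (v : X → B) (f : FreeNonUnitalNonAssocAlgebra F X),
        ((FreeNonUnitalNonAssocAlgebra.lift F v f : B) : J.ringCon.Quotient) =
          FreeAlgebra.lift F (fun i => (v i : J.ringCon.Quotient)) (toAssoc F X f) := by
      intro X v f
      rw [lift_unital]
      exact map_lift (NonUnitalSubalgebraClass.subtype B) v f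
    have hB : InVariety I B := by
      intro f hf v
      choose s hs hs' using fun i => (v i).2
      apply Subtype.ext
      rw [hval]
      have h1 : q (FreeAlgebra.lift F s (toAssoc F ℕ f)) = 0 := by
        rw [hq]
        exact TwoSidedIdeal.subset_span (Or.inl ⟨_, ⟨f, hf, rfl⟩, s, hs, rfl⟩)
      rw [lift_comp] at h1
      simp only [hs'] at h1
      exact h1
    let v0 : Fin n → B := fun i => ⟨q (FreeAlgebra.ι F i), FreeAlgebra.ι F i, constTerm_ι _, rfl⟩
    have hv0 : ∀ f : FreeNonUnitalNonAssocAlgebra F (Fin n),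
        ((FreeNonUnitalNonAssocAlgebra.lift F v0 f : B) : J.ringCon.Quotient) =
          q (toAssoc F (Fin n) f) := by
      intro f
      rw [hval]
      have h2 : FreeAlgebra.lift F (fun i => q (FreeAlgebra.ι F i)) = q := by
        apply FreeAlgebra.hom_ext
        funext i
        simp
      exact DFunLike.congr_fun h2 _
    have h3 := h B hB v0 (fun r hr => by
      apply Subtype.ext
      rw [hv0]
      change _ = (0 : J.ringCon.Quotient)
      rw [hq]
      refine TwoSidedIdeal.subset_span (Or.inr ?_)
      rw [hR]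
      exact ⟨r, hr, rfl⟩)
    have h4 := congrArg (Subtype.val) h3
    rw [hv0] at h4
    exact (hq _).1 h4
  · intro h A _ _ _ _ hA v hv
    let inst : NonUnitalRing A :=
      { (inferInstance : NonUnitalNonAssocRing A) with mul_assoc := hassoc A hA }
    let Φ : FreeAlgebra F (Fin n) →ₐ[F] Unitization F A :=
      FreeAlgebra.lift F (fun i => (Unitization.inr (v i) : Unitization F A))
    have hΦ : ∀ f, Φ (toAssoc F (Fin n) f) =
        Unitization.inr (FreeNonUnitalNonAssocAlgebra.lift F v f) := fun f => inr_lift v f
    have hker : relations (toAssoc F ℕ '' I) n R' ≤ TwoSidedIdeal.ker Φ := by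
      rw [relations, TwoSidedIdeal.span_le]
      rintro x (⟨_, ⟨f, hf, rfl⟩, s, hs, rfl⟩ | hx)
      · have hfst : ∀ y, (Φ y).fst = constTerm y := by
          intro y
          have : (Unitization.fstHom F A).comp Φ = constTerm := by
            apply FreeAlgebra.hom_ext
            funext i
            simp [Φ, constTerm]
          exact DFunLike.congr_fun this y
        have ha : ∀ i, Φ (s i) = Unitization.inr (Φ (s i)).snd := by
          intro i
          apply Unitization.ext
          · rw [hfst, hs, Unitization.fst_inr]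
          · rw [Unitization.snd_inr]
        show _ ∈ TwoSidedIdeal.ker Φ
        rw [TwoSidedIdeal.mem_ker, lift_comp]
        have h5 : (fun i => Φ (s i)) = fun i => (Unitization.inr (Φ (s i)).snd :
            Unitization F A) := by
          funext i
          exact ha i
        rw [h5, inr_lift, hA f hf, Unitization.inr_zero]
      · rw [hR] at hx
        obtain ⟨r, hr, rfl⟩ := hx
        show _ ∈ TwoSidedIdeal.ker Φ
        rw [TwoSidedIdeal.mem_ker, hΦ, hv r hr, Unitization.inr_zero]
    have h6 := hker h
    rw [TwoSidedIdeal.mem_ker, hΦ] at h6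
    exact Unitization.inr_injective (R := F) (by rw [h6, Unitization.inr_zero])

end Pool.Agent.Helper844.WPN
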