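import Mathlib
import Pool.Agent.Helper844.WP.Transfer

/-! Varieties of associative algebras that contain `W`, as varieties of nonassociative algebras. -/

set_option autoImplicit false

namespace Pool.Agent.Helper844.WPN

universe u

open Pool.Agent.Helper844.WP (constTerm relations values IsIdentity lift_comp constTerm_ι element
  Contains W WordProblemDecidable)

variable {F : Type u} [Field F]

/-- code of a left-normed monomial -/
def rpn {n : ℕ} (i : Fin n) (l : List (Fin n)) : List (Option (Fin n)) :=
  some i :: l.flatMap fun j => [some j, none]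

theorem run_rpn {n : ℕ} (l : List (Fin n)) :
    ∀ a : FreeNonUnitalNonAssocAlgebra F (Fin n),
      run F [a] (l.flatMap fun j => [some j, none]) =
        [l.foldl (fun a j => a * FreeNonUnitalNonAssocAlgebra.of F j) a] := by
  induction l with
  | nil => intro a; simp [run]
  | cons j l ih =>
    intro a
    rw [List.flatMap_cons]
    simp only [List.cons_append, List.nil_append, run, List.foldl_cons]
    exact ih _

theorem toAssoc_foldl {n : ℕ} (l : List (Fin n)) :
    ∀ a : FreeNonUnitalNonAssocAlgebra F (Fin n),
      toAssoc F (Fin n) (l.foldl (fun a j => a * FreeNonUnitalNonAssocAlgebra.of F j) a) =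
        toAssoc F (Fin n) a * (l.map (FreeAlgebra.ι F)).prod := by
  induction l with
  | nil => intro a; simp
  | cons j l ih =>
    intro a
    rw [List.foldl_cons, ih, map_mul, toAssoc_of, List.map_cons, List.prod_cons, mul_assoc]

/-- translation of codes -/
def trans {n : ℕ} (l : List (ℕ × Fin n × List (Fin n))) : List (ℕ × List (Option (Fin n))) :=
  l.map fun t => (t.1, rpn t.2.1 t.2.2)

theorem toAssoc_polynomial (ν : ℕ → F) {n : ℕ} (l : List (ℕ × Fin n × List (Fin n))) :
    toAssoc F (Fin n) (polynomial ν (trans l)) = element ν l := by
  rw [polynomial, element, trans, List.map_map, map_list_sum, List.map_map]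
  congr 1
  refine List.map_congr_left fun t _ => ?_
  simp only [Function.comp, rpn, map_smul]
  rw [run, run_rpn, List.headD_cons, toAssoc_foldl, toAssoc_of]

theorem trans_computable {n : ℕ} :
    Computable (trans : List (ℕ × Fin n × List (Fin n)) → List (ℕ × List (Option (Fin n)))) := by
  have h1 : Primrec fun t : Fin n × List (Fin n) => rpn t.1 t.2 := by
    refine Primrec.list_cons.comp (Primrec.option_some.comp Primrec.fst) ?_
    refine Primrec.list_flatMap Primrec.snd ?_
    refine Primrec.list_cons.comp (Primrec.option_some.comp Primrec.snd) ?_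
    exact Primrec.const _
  have h2 : Primrec (trans : List (ℕ × Fin n × List (Fin n)) →
      List (ℕ × List (Option (Fin n)))) := by
    refine Primrec.list_map Primrec.id ?_
    exact Primrec.pair (Primrec.fst.comp Primrec.snd)
      (h1.comp (Primrec.snd.comp Primrec.snd))
  exact h2.to_comp

theorem undecidable (F : Type u) [Field F] [CharZero F] (ν : ℕ → F)
    (hν : Function.Surjective ν) (I : Set (FreeNonUnitalNonAssocAlgebra F ℕ))
    (hassoc : ∀ (A : Type u) [NonUnitalNonAssocRing A] [Module F A] [IsScalarTower F A A]
      [SMulCommClass F A A], InVariety I A → ∀ a b c : A, a * b * c = a * (b * c))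
    (hW : ∀ (A : Type u) [NonUnitalRing A] [Module F A] [IsScalarTower F A A]
      [SMulCommClass F A A],
      (∀ x y z t u v : A, x * (y * z - z * y) * (t * u - u * t) * v = 0) →
      (∀ x y z t u : A, x * ((y * z - z * y) * t - t * (y * z - z * y)) * u = 0) →
      InVariety I A) :
    ∃ (n : ℕ) (R : Finset (FreeNonUnitalNonAssocAlgebra F (Fin n))),
      ¬ SolvableWordProblem ν I n R := by
  classical
  have hW' : Contains (toAssoc F ℕ '' I) (W F) := by
    intro A _ _ _ _ hA f hf v
    obtain ⟨f, hf, rfl⟩ := hf
    rw [inr_lift, hW A ?_ ?_ f hf v, Unitization.inr_zero]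
    · intro x y z t w u
      have h := hA _ (Or.inl rfl) (fun i => if i = 0 then x else if i = 1 then y else
        if i = 2 then z else if i = 3 then t else if i = 4 then w else u)
      simp only [Pool.Agent.Helper844.WP.var, Pool.Agent.Helper844.WP.comm, map_mul, map_sub,
        FreeAlgebra.lift_ι_apply, ← Unitization.inr_mul, ← Unitization.inr_sub] at h
      exact Unitization.inr_injective (R := F) (by rw [Unitization.inr_zero]; exact h)
    · intro x y z t w
      have h := hA _ (Or.inr rfl) (fun i => if i = 0 then x else if i = 1 then y else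
        if i = 2 then z else if i = 3 then t else w)
      simp only [Pool.Agent.Helper844.WP.var, Pool.Agent.Helper844.WP.comm, map_mul, map_sub,
        FreeAlgebra.lift_ι_apply, ← Unitization.inr_mul, ← Unitization.inr_sub] at h
      exact Unitization.inr_injective (R := F) (by rw [Unitization.inr_zero]; exact h)
  have h0 := Pool.Agent.Helper844.WP.undecidable F ν hν _ hW'
  rw [WordProblemDecidable] at h0
  push Not at h0
  obtain ⟨n, R', hR', hn⟩ := h0
  choose g hg using fun w : FreeAlgebra F (Fin n) => exists_pre w
  let R : Finset (FreeNonUnitalNonAssocAlgebra F (Fin n)) := R'.image g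
  have hR : (R' : Set (FreeAlgebra F (Fin n))) = toAssoc F (Fin n) '' R := by
    ext x
    constructor
    · intro hx
      refine ⟨g x, by simpa [R] using ⟨x, hx, rfl⟩, ?_⟩
      have := hg x
      rwa [hR' x hx, map_zero, add_zero] at this
    · rintro ⟨y, hy, rfl⟩
      simp only [R, Finset.coe_image, Set.mem_image] at hy
      obtain ⟨x, hx, rfl⟩ := hy
      have := hg x
      rw [hR' x hx, map_zero, add_zero] at this
      rw [this]
      exact hx
  refine ⟨n, R, fun hs => hn ?_⟩
  refine (Pool.Agent.Helper844.WP.comp_pred hs trans_computable).of_eq fun l => ?_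
  rw [isZero_iff I hassoc R R' hR, toAssoc_polynomial]

end Pool.Agent.Helper844.WPN
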