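import Mathlib
import Pool.Agent.Helper844.WP.NonAssocDefs

/-! Residually finite-dimensional finitely presented algebras. -/

set_option autoImplicit false

namespace Pool.Agent.Helper844.WPN

universe u

variable {F : Type u} [Field F]

/-- `A` is finitely presented in the variety defined by `I`: it is a member of the variety with
finitely many generators `v i`, and the polynomials that vanish at these generators are exactly
the ones that vanish in the algebra presented by a finite set `R` of relations. -/
def FinitelyPresentedIn (I : Set (FreeNonUnitalNonAssocAlgebra F ℕ)) (A : Type u)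
    [NonUnitalNonAssocRing A] [Module F A] [IsScalarTower F A A] [SMulCommClass F A A] : Prop :=
  InVariety I A ∧ ∃ (n : ℕ) (R : Finset (FreeNonUnitalNonAssocAlgebra F (Fin n)))
    (v : Fin n → A), Function.Surjective (FreeNonUnitalNonAssocAlgebra.lift F v) ∧
    ∀ w, FreeNonUnitalNonAssocAlgebra.lift F v w = 0 ↔ IsZero I n R w

/-- `A` is residually finite-dimensional: every nonzero element survives under a homomorphism
into a finite-dimensional algebra. -/
def ResiduallyFiniteDimensional (F : Type u) [Field F] (A : Type u) [NonUnitalNonAssocRing A]
    [Module F A] : Prop :=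
  ∀ a : A, a ≠ 0 → ∃ (B : Type u) (_ : NonUnitalNonAssocRing B) (_ : Module F B)
    (_ : IsScalarTower F B B) (_ : SMulCommClass F B B) (_ : Module.Finite F B)
    (φ : A →ₙₐ[F] B), φ a ≠ 0

/-- The variety defined by `I` is an RFD-variety: all its finitely presented algebras are
residually finite-dimensional. -/
def IsRFDVariety (I : Set (FreeNonUnitalNonAssocAlgebra F ℕ)) : Prop :=
  ∀ (A : Type u) [NonUnitalNonAssocRing A] [Module F A] [IsScalarTower F A A]
    [SMulCommClass F A A], FinitelyPresentedIn I A → ResiduallyFiniteDimensional F A

end Pool.Agent.Helper844.WPN
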