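import Mathlib
import Pool.Agent.Helper844.WP.RFDDefs
import Pool.Agent.Helper844.WP.Transfer
import Pool.Agent.Helper844.WP.NonAssocMain

/-! A finitely presented algebra that is not residually finite-dimensional. -/

set_option autoImplicit false

namespace Pool.Agent.Helper844.WPN

universe u

open Pool.Agent.Helper844.WP
open scoped Nat

variable {F : Type u} [Field F]

theorem factorial_claim [CharZero F] : ∀ (s : Finset ℕ) (p : ℕ → F),
    (∀ j : ℕ, ∑ i ∈ s, p i * ((i + j + 1)! : F) = 0) → ∀ i ∈ s, p i = 0 := by
  intro s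
  induction s using Finset.induction_on with
  | empty => intro p _ i hi; simp at hi
  | insert a s ha ih =>
    intro p h
    have h1 : ∀ j : ℕ, ∑ i ∈ s, ((i : F) - a) * p i * ((i + j + 1)! : F) = 0 := by
      intro j
      have e0 := h j
      have e1 := h (j + 1)
      have e2 : ∑ i ∈ insert a s, ((i : F) - a) * p i * ((i + j + 1)! : F) = 0 := by
        have e3 : ∑ i ∈ insert a s, ((i : F) - a) * p i * ((i + j + 1)! : F) =
            ∑ i ∈ insert a s, p i * ((i + (j + 1) + 1)! : F) -
              (j + 2 + a) * ∑ i ∈ insert a s, p i * ((i + j + 1)! : F) := by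
          rw [Finset.mul_sum, ← Finset.sum_sub_distrib]
          refine Finset.sum_congr rfl fun i _ => ?_
          have e4 : (i + (j + 1) + 1)! = (i + j + 2) * (i + j + 1)! := by
            rw [show i + (j + 1) + 1 = (i + j + 1) + 1 by ring, Nat.factorial_succ]
          rw [e4]
          push_cast
          ring
        rw [e3, e0, e1]
        ring
      rw [Finset.sum_insert ha] at e2
      simpa using e2
    have h2 : ∀ i ∈ s, p i = 0 := by
      intro i hi
      have := ih (fun i => ((i : F) - a) * p i) h1 i hi
      rcases mul_eq_zero.1 this with h3 | h3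
      · rw [sub_eq_zero, Nat.cast_inj] at h3
        subst h3
        exact absurd hi ha
      · exact h3
    intro i hi
    rw [Finset.mem_insert] at hi
    rcases hi with rfl | hi
    · have e0 := h 0
      rw [Finset.sum_insert ha, Finset.sum_eq_zero (fun j hj => by rw [h2 j hj, zero_mul]),
        add_zero] at e0
      rcases mul_eq_zero.1 e0 with h3 | h3
      · exact h3
      · exact absurd h3 (Nat.cast_ne_zero.2 (Nat.factorial_ne_zero _))
    · exact h2 i hi

/-- the equation `x φ' + φ - x φ = 1` -/
noncomputable def P1 (F : Type u) [Field F] : PDE F Unit Unit Unit where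
  d := fun _ _ _ => 1
  c := fun _ _ => 1 - FreeAlgebra.ι F ()

theorem P1_range (F : Type u) [Field F] :
    (Pi.single () (([] : List Unit).map MvPolynomial.X).prod : Unit → MvPolynomial Unit F) ∉
      (P1 F).range := by
  let lam : MvPolynomial Unit F →ₗ[F] F :=
    (MvPolynomial.basisMonomials Unit F).constr F (fun s => ((s ())! : F))
  have hlam : ∀ (s : Unit →₀ ℕ) (a : F), lam (MvPolynomial.monomial s a) = a * ((s ())! : F) := by
    intro s a
    have h1 : MvPolynomial.monomial s a = a • MvPolynomial.basisMonomials Unit F s := by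
      rw [MvPolynomial.coe_basisMonomials, MvPolynomial.smul_monomial, smul_eq_mul, mul_one]
    rw [h1, map_smul, Module.Basis.constr_basis, smul_eq_mul]
  let L : (Unit → MvPolynomial Unit F) →ₗ[F] F := lam ∘ₗ LinearMap.proj ()
  have hle : (P1 F).range ≤ LinearMap.ker L := by
    refine iSup_le fun j => ?_
    rintro _ ⟨g, rfl⟩
    rw [LinearMap.mem_ker]
    change lam ((P1 F).col j g ()) = 0
    rw [PDE.col_apply]
    induction g using MvPolynomial.induction_on' with
    | monomial s a =>
      have h2 : (P1 F).cp () j * MvPolynomial.monomial s a = MvPolynomial.monomial s a -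
          MvPolynomial.monomial (s + Finsupp.single () 1) a := by
        simp only [PDE.cp, P1, map_sub, map_one, FreeAlgebra.lift_ι_apply, sub_mul, one_mul]
        rw [MvPolynomial.X, MvPolynomial.monomial_mul, one_mul, add_comm s]
      rw [h2, D_monomial, map_add, map_smul, map_sub, hlam, hlam]
      simp only [P1, Finset.univ_unique, Finset.sum_singleton, PUnit.default_eq_unit,
        Finsupp.add_apply, Finsupp.single_eq_same, smul_eq_mul, one_mul, Nat.factorial_succ]
      push_cast
      ring
    | add p q hp hq =>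
      simp only [map_add, mul_add] at hp hq ⊢
      linear_combination hp + hq
  intro h
  have h3 := hle h
  rw [LinearMap.mem_ker] at h3
  change lam ((Pi.single () (([] : List Unit).map MvPolynomial.X).prod :
    Unit → MvPolynomial Unit F) ()) = 0 at h3
  rw [Pi.single_eq_same, List.map_nil, List.prod_nil] at h3
  have h4 := hlam 0 1
  rw [MvPolynomial.monomial_zero', MvPolynomial.C_1] at h4
  rw [h4] at h3
  simp at h3

section ring

variable {U : Type*} [Ring U] [Algebra F U] {a b x t m : U}

theorem t_pow (hxm : x * m = m * x) (htx : t * x = x * t + x * m) (k : ℕ) :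
    t * x ^ k = x ^ k * t + (k : F) • (x ^ k * m) := by
  induction k with
  | zero => simp
  | succ k ih =>
    have hc : m * x ^ k = x ^ k * m := ((show Commute x m from hxm).pow_left k).symm.eq
    rw [pow_succ, ← mul_assoc, ih, add_mul, mul_assoc, htx, mul_add, smul_mul_assoc,
      mul_assoc (x ^ k) m x, ← hxm, ← mul_assoc, ← mul_assoc]
    push_cast
    rw [add_smul, one_smul]
    abel

theorem z_succ (hxm : x * m = m * x) (htx : t * x = x * t + x * m)
    (hat : a * t + a * (1 - x) * m = 0) (htb : t * b = 0) (k : ℕ) :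
    a * x ^ (k + 1) * m * b = ((k : F) + 1) • (a * x ^ k * m * b) := by
  have h1 : a * (t * x ^ k) * b = (k : F) • (a * x ^ k * m * b) := by
    rw [t_pow (F := F) hxm htx, mul_add, add_mul, ← mul_assoc, mul_assoc (a * x ^ k), htb,
      mul_zero, zero_add, mul_smul_comm, smul_mul_assoc]
    simp only [mul_assoc]
  have h2 : a * (t * x ^ k) * b = a * x ^ (k + 1) * m * b - a * x ^ k * m * b := by
    have hc : m * x ^ k = x ^ k * m := ((show Commute x m from hxm).pow_left k).symm.eq
    have h3 : a * t = a * x * m - a * m := by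
      rw [add_eq_zero_iff_eq_neg] at hat
      rw [hat]
      noncomm_ring
    rw [← mul_assoc, h3, sub_mul, sub_mul, mul_assoc (a * x) m, mul_assoc a m, hc, pow_succ']
    simp only [mul_assoc]
  rw [h1] at h2
  rw [add_smul, one_smul, h2]
  abel

theorem z_fact (hxm : x * m = m * x) (htx : t * x = x * t + x * m)
    (hat : a * t + a * (1 - x) * m = 0) (htb : t * b = 0) (k : ℕ) :
    a * x ^ k * m * b = ((k)! : F) • (a * m * b) := by
  induction k with
  | zero => simp
  | succ k ih =>
    rw [z_succ (F := F) hxm htx hat htb, ih, smul_smul, Nat.factorial_succ]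
    push_cast
    rfl

end ring

theorem exists_presented (I : Set (FreeNonUnitalNonAssocAlgebra F ℕ))
    (hassoc : ∀ (A : Type u) [NonUnitalNonAssocRing A] [Module F A] [IsScalarTower F A A]
      [SMulCommClass F A A], InVariety I A → ∀ a b c : A, a * b * c = a * (b * c))
    {n : ℕ} (R : Finset (FreeNonUnitalNonAssocAlgebra F (Fin n)))
    (R' : Finset (FreeAlgebra F (Fin n)))
    (hR : (R' : Set (FreeAlgebra F (Fin n))) = toAssoc F (Fin n) '' R) :
    ∃ (A : Type u) (_ : NonUnitalRing A) (_ : Module F A) (_ : IsScalarTower F A A)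
      (_ : SMulCommClass F A A) (v : Fin n → A), InVariety I A ∧
      Function.Surjective (FreeNonUnitalNonAssocAlgebra.lift F v) ∧
      ∀ w, FreeNonUnitalNonAssocAlgebra.lift F v w = 0 ↔ IsZero I n R w := by
  let J := relations (toAssoc F ℕ '' I) n R'
  let q : FreeAlgebra F (Fin n) →ₐ[F] J.ringCon.Quotient :=
    { J.ringCon.mk' with
      commutes' := fun r => rfl }
  have hq : ∀ y, q y = 0 ↔ y ∈ J := by
    intro y
    rw [TwoSidedIdeal.mem_iff]
    exact RingCon.eq (c := J.ringCon)
  let B : NonUnitalSubalgebra F J.ringCon.Quotient :=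
    { carrier := {x | ∃ u, constTerm u = 0 ∧ q u = x}
      add_mem' := by
        rintro _ _ ⟨u, hu, rfl⟩ ⟨v, hv, rfl⟩
        exact ⟨u + v, by rw [map_add, hu, hv, add_zero], map_add _ _ _⟩
      zero_mem' := ⟨0, map_zero _, map_zero _⟩
      mul_mem' := by
        rintro _ _ ⟨u, hu, rfl⟩ ⟨v, hv, rfl⟩
        exact ⟨u * v, by rw [map_mul, hu, zero_mul], map_mul _ _ _⟩
      smul_mem' := by
        rintro r _ ⟨u, hu, rfl⟩
        exact ⟨r • u, by rw [map_smul, hu, smul_zero], map_smul _ _ _⟩ }
  have hval : ∀ {X : Type} (v : X → B) (f : FreeNonUnitalNonAssocAlgebra F X),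
      ((FreeNonUnitalNonAssocAlgebra.lift F v f : B) : J.ringCon.Quotient) =
        FreeAlgebra.lift F (fun i => (v i : J.ringCon.Quotient)) (toAssoc F X f) := by
    intro X v f
    rw [lift_unital]
    exact map_lift (NonUnitalSubalgebraClass.subtype B) v f
  have hB : InVariety I B := by
    intro f hf v
    choose s hs hs' using fun i => (v i).2
    apply Subtype.ext
    rw [hval]
    have h1 : q (FreeAlgebra.lift F s (toAssoc F ℕ f)) = 0 := by
      rw [hq]
      exact TwoSidedIdeal.subset_span (Or.inl ⟨_, ⟨f, hf, rfl⟩, s, hs, rfl⟩)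
    rw [lift_comp] at h1
    simp only [hs'] at h1
    exact h1
  let v0 : Fin n → B := fun i => ⟨q (FreeAlgebra.ι F i), FreeAlgebra.ι F i, constTerm_ι _, rfl⟩
  have hv0 : ∀ f : FreeNonUnitalNonAssocAlgebra F (Fin n),
      ((FreeNonUnitalNonAssocAlgebra.lift F v0 f : B) : J.ringCon.Quotient) =
        q (toAssoc F (Fin n) f) := by
    intro f
    rw [hval]
    have h2 : FreeAlgebra.lift F (fun i => q (FreeAlgebra.ι F i)) = q := by
      apply FreeAlgebra.hom_ext
      funext i
      simp
    exact DFunLike.congr_fun h2 _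
  refine ⟨B, inferInstance, inferInstance, inferInstance, inferInstance, v0, hB, ?_, ?_⟩
  · rintro ⟨x, u, hu, rfl⟩
    obtain ⟨u', hu'⟩ := exists_pre u
    refine ⟨u', Subtype.ext ?_⟩
    rw [hv0]
    rw [hu, map_zero, add_zero] at hu'
    rw [hu']
  · intro w
    rw [isZero_iff I hassoc R R' hR, ← hq, ← hv0]
    exact Subtype.ext_iff

theorem contains_of {I : Set (FreeNonUnitalNonAssocAlgebra F ℕ)}
    (hW : ∀ (A : Type u) [NonUnitalRing A] [Module F A] [IsScalarTower F A A]
      [SMulCommClass F A A],
      (∀ x y z t u v : A, x * (y * z - z * y) * (t * u - u * t) * v = 0) →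
      (∀ x y z t u : A, x * ((y * z - z * y) * t - t * (y * z - z * y)) * u = 0) →
      InVariety I A) : Contains (toAssoc F ℕ '' I) (W F) := by
  intro A _ _ _ _ hA f hf v
  obtain ⟨f, hf, rfl⟩ := hf
  rw [inr_lift, hW A ?_ ?_ f hf v, Unitization.inr_zero]
  · intro x y z t w u
    have h := hA _ (Or.inl rfl) (fun i => if i = 0 then x else if i = 1 then y else
      if i = 2 then z else if i = 3 then t else if i = 4 then w else u)
    simp only [Pool.Agent.Helper844.WP.var, Pool.Agent.Helper844.WP.comm, map_mul, map_sub,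
      FreeAlgebra.lift_ι_apply, ← Unitization.inr_mul, ← Unitization.inr_sub] at h
    exact Unitization.inr_injective (R := F) (by rw [Unitization.inr_zero]; exact h)
  · intro x y z t w
    have h := hA _ (Or.inr rfl) (fun i => if i = 0 then x else if i = 1 then y else
      if i = 2 then z else if i = 3 then t else w)
    simp only [Pool.Agent.Helper844.WP.var, Pool.Agent.Helper844.WP.comm, map_mul, map_sub,
      FreeAlgebra.lift_ι_apply, ← Unitization.inr_mul, ← Unitization.inr_sub] at h
    exact Unitization.inr_injective (R := F) (by rw [Unitization.inr_zero]; exact h)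

theorem not_rfd [CharZero F] (I : Set (FreeNonUnitalNonAssocAlgebra F ℕ))
    (hassoc : ∀ (A : Type u) [NonUnitalNonAssocRing A] [Module F A] [IsScalarTower F A A]
      [SMulCommClass F A A], InVariety I A → ∀ a b c : A, a * b * c = a * (b * c))
    (hW : ∀ (A : Type u) [NonUnitalRing A] [Module F A] [IsScalarTower F A A]
      [SMulCommClass F A A],
      (∀ x y z t u v : A, x * (y * z - z * y) * (t * u - u * t) * v = 0) →
      (∀ x y z t u : A, x * ((y * z - z * y) * t - t * (y * z - z * y)) * u = 0) →
      InVariety I A) : ¬ IsRFDVariety I := by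
  classical
  intro hrfd
  have hW' := contains_of hW
  obtain ⟨n, ⟨e⟩⟩ := Finite.exists_equiv_fin (Gen Unit Unit Unit)
  have hfin : (relSet (P1 F) (fun y => FreeAlgebra.ι F (e y))).Finite := by
    refine Set.Finite.union (Set.Finite.union (Set.Finite.union (Set.Finite.union ?_ ?_) ?_) ?_) ?_
    all_goals exact Set.finite_range _
  let R' : Finset (FreeAlgebra F (Fin n)) := hfin.toFinset
  have hR' : (R' : Set (FreeAlgebra F (Fin n))) =
      relSet (P1 F) (fun y => FreeAlgebra.ι F (e y)) := hfin.coe_toFinset
  have hconst : ∀ r ∈ R', constTerm r = 0 := by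
    intro r hr
    have hr' : r ∈ relSet (P1 F) (fun y => FreeAlgebra.ι F (e y)) := by
      rw [← hR']
      exact hr
    rcases hr' with (((⟨p, rfl⟩ | ⟨p, rfl⟩) | ⟨p, rfl⟩) | ⟨j, rfl⟩) | ⟨j, rfl⟩
    all_goals simp only [map_sub, map_mul, map_add, map_sum, map_smul, constTerm_ι, mul_zero,
      zero_mul, sub_zero, add_zero, smul_zero, Finset.sum_const_zero]
  choose g hg using fun w : FreeAlgebra F (Fin n) => exists_pre w
  let R : Finset (FreeNonUnitalNonAssocAlgebra F (Fin n)) := R'.image g
  have hR : (R' : Set (FreeAlgebra F (Fin n))) = toAssoc F (Fin n) '' R := by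
    ext x
    constructor
    · intro hx
      refine ⟨g x, by simpa [R] using ⟨x, hx, rfl⟩, ?_⟩
      have := hg x
      rwa [hconst x hx, map_zero, add_zero] at this
    · rintro ⟨y, hy, rfl⟩
      simp only [R, Finset.coe_image, Set.mem_image] at hy
      obtain ⟨x, hx, rfl⟩ := hy
      have := hg x
      rw [hconst x hx, map_zero, add_zero] at this
      rw [this]
      exact hx
  obtain ⟨A, _, _, _, _, v, hA, hsurj, hker⟩ := exists_presented I hassoc R R' hR
  -- the equations
  have hH : Holds (P1 F) (fun y => (Unitization.inr (v (e y)) : Unitization F A)) := by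
    rw [holds_iff]
    have h1 : (fun y => (Unitization.inr (v (e y)) : Unitization F A)) = fun y =>
        (FreeAlgebra.lift F (fun i => (Unitization.inr (v i) : Unitization F A)))
          (FreeAlgebra.ι F (e y)) := by
      funext y
      rw [FreeAlgebra.lift_ι_apply]
    rw [h1, relSet_map]
    rintro _ ⟨x, hx, rfl⟩
    rw [← hR', hR] at hx
    obtain ⟨r, hr, rfl⟩ := hx
    rw [inr_lift, (hker r).2, Unitization.inr_zero]
    intro A' _ _ _ _ _ v' hv'
    exact hv' r hr
  have hxm := sub_eq_zero.1 (hH.xm () ())
  have htx : (Unitization.inr (v (e (.t ()))) : Unitization F A) * Unitization.inr (v (e (.x ()))) =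
      Unitization.inr (v (e (.x ()))) * Unitization.inr (v (e (.t ()))) +
      Unitization.inr (v (e (.x ()))) * Unitization.inr (v (e (.m ()))) := by
    have := hH.tx () ()
    simp only [P1, Finset.univ_unique, Finset.sum_singleton, one_smul] at this
    rw [sub_sub, sub_eq_zero] at this
    exact this
  have hat : (Unitization.inr (v (e .a)) : Unitization F A) * Unitization.inr (v (e (.t ()))) +
      Unitization.inr (v (e .a)) * (1 - Unitization.inr (v (e (.x ())))) *
        Unitization.inr (v (e (.m ()))) = 0 := by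
    have := hH.at' ()
    simp only [P1, Finset.univ_unique, Finset.sum_singleton, map_sub, map_one,
      FreeAlgebra.lift_ι_apply] at this
    exact this
  have htb := hH.tb ()
  have hz := z_fact (F := F) hxm htx hat htb
  -- the elements of the algebra
  let X : ℕ → A → A := fun k y => (fun w => v (e (.x ())) * w)^[k] y
  have hX : ∀ k y, (Unitization.inr (X k y) : Unitization F A) =
      (Unitization.inr (v (e (.x ()))) : Unitization F A) ^ k * Unitization.inr y := by
    intro k
    induction k with
    | zero => intro y; simp [X]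
    | succ k ih =>
      intro y
      have h1 : X (k + 1) y = X k (v (e (.x ())) * y) := rfl
      rw [h1, ih, Unitization.inr_mul, pow_succ, mul_assoc]
  let z : ℕ → A := fun k => v (e .a) * X k (v (e (.m ())) * v (e .b))
  have hz1 : ∀ k, z k = ((k)! : F) • z 0 := by
    intro k
    have h2 : ∀ k, (Unitization.inr (z k) : Unitization F A) =
        Unitization.inr (v (e .a)) * Unitization.inr (v (e (.x ()))) ^ k *
          Unitization.inr (v (e (.m ()))) * Unitization.inr (v (e .b)) := by
      intro k
      simp only [z]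
      rw [Unitization.inr_mul, hX, Unitization.inr_mul]
      simp only [mul_assoc]
    apply Unitization.inr_injective (R := F)
    rw [Unitization.inr_smul, h2, h2, hz, pow_zero, mul_one]
  have hz0 : z 0 ≠ 0 := by
    intro h0
    let w0 : FreeNonUnitalNonAssocAlgebra F (Fin n) := FreeNonUnitalNonAssocAlgebra.of F (e .a) *
      (FreeNonUnitalNonAssocAlgebra.of F (e (.m ())) * FreeNonUnitalNonAssocAlgebra.of F (e .b))
    have h1 : FreeNonUnitalNonAssocAlgebra.lift F v w0 = z 0 := by
      simp only [w0, map_mul, FreeNonUnitalNonAssocAlgebra.lift_of_apply]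
      rfl
    rw [h0, hker, isZero_iff I hassoc R R' hR] at h1
    have h2 := word_iff (P1 F) (toAssoc F ℕ '' I) hW' e R' hR' () []
    rw [List.map_nil, List.prod_nil, mul_one] at h2
    refine P1_range F (h2.1 ?_)
    convert h1 using 1
    simp only [w0, map_mul, toAssoc_of, mul_assoc]
  obtain ⟨B, _, _, _, _, _, f, hf⟩ := hrfd A ⟨hA, n, R, v, hsurj, hker⟩ (z 0) hz0
  have hnot : ¬ LinearIndependent F (fun i : ℕ => f (X i (v (e (.x ()))))) := by
    intro hli
    have := hli.finite_of_isNoetherian
    exact not_finite ℕ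
  rw [not_linearIndependent_iff] at hnot
  obtain ⟨s, c, hs, i, hi, hci⟩ := hnot
  refine hci (factorial_claim s c (fun j => ?_) i hi)
  have h3 : ∀ i, v (e .a) * (X i (v (e (.x ()))) * X j (v (e (.m ())) * v (e .b))) =
      z (i + j + 1) := by
    intro i
    apply Unitization.inr_injective (R := F)
    simp only [z]
    rw [Unitization.inr_mul, Unitization.inr_mul, Unitization.inr_mul, hX, hX, hX]
    have h4 : i + j + 1 = i + 1 + j := by ring
    rw [h4, pow_add, pow_add, pow_one]
    simp only [mul_assoc]
  have h5 : f (v (e .a)) * ((∑ i ∈ s, c i • f (X i (v (e (.x ()))))) *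
      f (X j (v (e (.m ())) * v (e .b)))) = 0 := by
    rw [hs, zero_mul, mul_zero]
  rw [Finset.sum_mul, Finset.mul_sum] at h5
  have h6 : ∀ i ∈ s, f (v (e .a)) * (c i • f (X i (v (e (.x ())))) *
      f (X j (v (e (.m ())) * v (e .b)))) = (c i * ((i + j + 1)! : F)) • f (z 0) := by
    intro i _
    rw [smul_mul_assoc, mul_smul_comm, ← map_mul, ← map_mul, h3, hz1, map_smul, smul_smul]
  rw [Finset.sum_congr rfl h6, ← Finset.sum_smul] at h5
  exact (smul_eq_zero.1 h5).resolve_right hf

end Pool.Agent.Helper844.WPN
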